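import Pool.Agent.Torelli.Defs

/-!
# Torelli project: shared API

* extensionality on letters, values of `Ta`, `Tb`, `P` (and inverses) on the letters `a j`, `b j`;
* `Ta_mem_M`, `Tb_mem_M`, `P_mem_M`, `M_mono`, `M_induction`;
* `zeta_succ`, `zeta_add`; `M s h` fixes `zeta s h` and the outer letters (`StF`, `M_le_StF`);
* `FS s h` = subgroup generated by the letters of the handles `s, ..., s+h-1`;
  `M s h` preserves `FS s h` and fixes `FS s' h'` pointwise for disjoint ranges of handles;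
* disjoint `M`'s commute;
* `cl` on letters, `mem_IA_iff`, kernel of `cl` = commutator subgroup.
-/

set_option autoImplicit false

namespace Pool.Agent.Torelli

/-! ## Extensionality -/

theorem hom_ext_of {G : Type*} [Group G] {f g : F →* G}
    (h : ∀ n, f (FreeGroup.of n) = g (FreeGroup.of n)) : f = g := by
  ext n; exact h n

theorem aut_ext_of {φ ψ : MulAut F} (h : ∀ n, φ (FreeGroup.of n) = ψ (FreeGroup.of n)) :
    φ = ψ := by
  have : φ.toMonoidHom = ψ.toMonoidHom := hom_ext_of h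
  ext x
  exact DFunLike.congr_fun this x

theorem a_def (i : ℕ) : a i = FreeGroup.of (2 * i) := rfl
theorem b_def (i : ℕ) : b i = FreeGroup.of (2 * i + 1) := rfl

/-- every letter is `a j` or `b j` -/
theorem letter_cases (n : ℕ) : (FreeGroup.of n : F) = a (n / 2) ∧ n = 2 * (n / 2) ∨
    (FreeGroup.of n : F) = b (n / 2) ∧ n = 2 * (n / 2) + 1 := by
  rcases Nat.even_or_odd' n with ⟨k, h | h⟩
  · left
    have h1 : n = 2 * (n / 2) := by omega
    exact ⟨by rw [a, ← h1], h1⟩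
  · right
    have h1 : n = 2 * (n / 2) + 1 := by omega
    exact ⟨by rw [b, ← h1], h1⟩

/-- extensionality for automorphisms on `a j`, `b j` -/
theorem aut_ext_ab {φ ψ : MulAut F} (ha : ∀ j, φ (a j) = ψ (a j)) (hb : ∀ j, φ (b j) = ψ (b j)) :
    φ = ψ := by
  apply aut_ext_of
  intro n
  rcases letter_cases n with ⟨h, -⟩ | ⟨h, -⟩
  · rw [h, ha]
  · rw [h, hb]

theorem hom_ext_ab {G : Type*} [Group G] {f g : F →* G} (ha : ∀ j, f (a j) = g (a j))
    (hb : ∀ j, f (b j) = g (b j)) : f = g := by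
  apply hom_ext_of
  intro n
  rcases letter_cases n with ⟨h, -⟩ | ⟨h, -⟩
  · rw [h, ha]
  · rw [h, hb]

theorem aut_ext {φ ψ : MulAut F} (ha : ∀ j, φ (a j) = ψ (a j)) (hb : ∀ j, φ (b j) = ψ (b j)) :
    φ = ψ := aut_ext_ab ha hb

/-! ## Values of the generators -/

theorem Ta_of (i n : ℕ) : Ta i (FreeGroup.of n) = taF i n := mkAut_of _ _ _ _ n
theorem Tb_of (i n : ℕ) : Tb i (FreeGroup.of n) = tbF i n := mkAut_of _ _ _ _ n
theorem P_of (i n : ℕ) : P i (FreeGroup.of n) = pF i n := mkAut_of _ _ _ _ n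
theorem Ta_inv_of (i n : ℕ) : (Ta i)⁻¹ (FreeGroup.of n) = taG i n := mkAut_symm_of _ _ _ _ n
theorem Tb_inv_of (i n : ℕ) : (Tb i)⁻¹ (FreeGroup.of n) = tbG i n := mkAut_symm_of _ _ _ _ n
theorem P_inv_of (i n : ℕ) : (P i)⁻¹ (FreeGroup.of n) = pG i n := mkAut_symm_of _ _ _ _ n

theorem Ta_of_ne {i n : ℕ} (h : n ≠ 2 * i + 1) : Ta i (FreeGroup.of n) = FreeGroup.of n := by
  rw [Ta_of, taF, if_neg h]
theorem Tb_of_ne {i n : ℕ} (h : n ≠ 2 * i) : Tb i (FreeGroup.of n) = FreeGroup.of n := by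
  rw [Tb_of, tbF, if_neg h]
theorem P_of_ne {i n : ℕ} (h1 : n ≠ 2 * i + 1) (h2 : n ≠ 2 * (i + 1)) (h3 : n ≠ 2 * (i + 1) + 1) :
    P i (FreeGroup.of n) = FreeGroup.of n := by
  rw [P_of, pF, if_neg h1, if_neg h2, if_neg h3]

theorem aut_inv_eq {φ : MulAut F} {x y : F} (h : φ x = y) : φ⁻¹ y = x := by
  rw [← h]; exact MulAut.inv_apply_self _ φ x

theorem aut_inv_fix {φ : MulAut F} {x : F} (h : φ x = x) : φ⁻¹ x = x := aut_inv_eq h

theorem Ta_a (i j : ℕ) : Ta i (a j) = a j := Ta_of_ne (by omega)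
theorem Ta_b (i : ℕ) : Ta i (b i) = b i * a i := by rw [b, Ta_of, taF_b, b]
theorem Ta_b_ne {i j : ℕ} (h : j ≠ i) : Ta i (b j) = b j := Ta_of_ne (by omega)
theorem Tb_b (i j : ℕ) : Tb i (b j) = b j := Tb_of_ne (by omega)
theorem Tb_a (i : ℕ) : Tb i (a i) = a i * b i := by rw [a, Tb_of, tbF_a, a]
theorem Tb_a_ne {i j : ℕ} (h : j ≠ i) : Tb i (a j) = a j := Tb_of_ne (by omega)
theorem P_a (i : ℕ) : P i (a i) = a i := P_of_ne (by omega) (by omega) (by omega)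
theorem P_b (i : ℕ) : P i (b i) = (a (i + 1))⁻¹ * b i := by rw [b, P_of, pF_b, b]
theorem P_x (i : ℕ) : P i (a (i + 1)) = (a (i + 1))⁻¹ * (d i)⁻¹ * a (i + 1) * d i * a (i + 1) := by
  conv_lhs => rw [a]
  rw [P_of, pF_x]
theorem P_y (i : ℕ) : P i (b (i + 1)) = b (i + 1) * (a (i + 1))⁻¹ * d i * a (i + 1) := by
  conv_lhs => rw [b]
  rw [P_of, pF_y]
theorem P_a_ne {i j : ℕ} (h2 : j ≠ i + 1) : P i (a j) = a j :=
  P_of_ne (by omega) (by omega) (by omega)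
theorem P_b_ne {i j : ℕ} (h1 : j ≠ i) (h2 : j ≠ i + 1) : P i (b j) = b j :=
  P_of_ne (by omega) (by omega) (by omega)

theorem Ta_inv_a (i j : ℕ) : (Ta i)⁻¹ (a j) = a j := aut_inv_fix (Ta_a i j)
theorem Ta_inv_b (i : ℕ) : (Ta i)⁻¹ (b i) = b i * (a i)⁻¹ := by rw [b, Ta_inv_of, taG_b, b]
theorem Ta_inv_b_ne {i j : ℕ} (h : j ≠ i) : (Ta i)⁻¹ (b j) = b j := aut_inv_fix (Ta_b_ne h)
theorem Tb_inv_b (i j : ℕ) : (Tb i)⁻¹ (b j) = b j := aut_inv_fix (Tb_b i j)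
theorem Tb_inv_a (i : ℕ) : (Tb i)⁻¹ (a i) = a i * (b i)⁻¹ := by rw [a, Tb_inv_of, tbG_a, a]
theorem Tb_inv_a_ne {i j : ℕ} (h : j ≠ i) : (Tb i)⁻¹ (a j) = a j := aut_inv_fix (Tb_a_ne h)
theorem P_inv_a (i : ℕ) : (P i)⁻¹ (a i) = a i := aut_inv_fix (P_a i)
theorem P_inv_b (i : ℕ) : (P i)⁻¹ (b i) = d i * a (i + 1) * (d i)⁻¹ * b i := by
  conv_lhs => rw [b]
  rw [P_inv_of, pG_b]
theorem P_inv_x (i : ℕ) : (P i)⁻¹ (a (i + 1)) = d i * a (i + 1) * (d i)⁻¹ := by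
  conv_lhs => rw [a]
  rw [P_inv_of, pG_x]
theorem P_inv_y (i : ℕ) : (P i)⁻¹ (b (i + 1)) = b (i + 1) * (d i)⁻¹ := by
  conv_lhs => rw [b]
  rw [P_inv_of, pG_y]
theorem P_inv_a_ne {i j : ℕ} (h2 : j ≠ i + 1) : (P i)⁻¹ (a j) = a j := aut_inv_fix (P_a_ne h2)
theorem P_inv_b_ne {i j : ℕ} (h1 : j ≠ i) (h2 : j ≠ i + 1) : (P i)⁻¹ (b j) = b j :=
  aut_inv_fix (P_b_ne h1 h2)

theorem H_eq_commutator (i : ℕ) : H i = a i * b i * (a i)⁻¹ * (b i)⁻¹ := rfl

theorem Ta_H (i j : ℕ) : Ta i (H j) = H j := by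
  simp only [H, map_mul, map_inv, Ta_a]
  by_cases h : j = i
  · subst h; rw [Ta_b]; group
  · rw [Ta_b_ne h]

theorem Tb_H (i j : ℕ) : Tb i (H j) = H j := by
  simp only [H, map_mul, map_inv, Tb_b]
  by_cases h : j = i
  · subst h; rw [Tb_a]; group
  · rw [Tb_a_ne h]

theorem P_H_ne {i j : ℕ} (h1 : j ≠ i) (h2 : j ≠ i + 1) : P i (H j) = H j := by
  simp only [H, map_mul, map_inv, P_a_ne h2, P_b_ne h1 h2]

theorem P_HH (i : ℕ) : P i (H i * H (i + 1)) = H i * H (i + 1) := by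
  simp only [H, map_mul, map_inv, P_a, P_b, P_x, P_y, d]
  group

theorem w_H (i j : ℕ) : w i (H j) = H j := by
  rw [w, MulAut.mul_apply, aut_inv_fix (Tb_H i j), Ta_H]

theorem w_a (i : ℕ) : w i (a i) = (b i)⁻¹ := by
  rw [w, MulAut.mul_apply, Tb_inv_a, map_mul, map_inv, Ta_a, Ta_b]; group

theorem w_b (i : ℕ) : w i (b i) = b i * a i := by
  rw [w, MulAut.mul_apply, Tb_inv_b, Ta_b]

/-! ## The boundary word -/

theorem zeta_zero (s : ℕ) : zeta s 0 = 1 := rfl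

theorem zeta_succ (s h : ℕ) : zeta s (h + 1) = zeta s h * H (s + h) := by
  simp [zeta, List.range_succ]

theorem zeta_add (s h k : ℕ) : zeta s (h + k) = zeta s h * zeta (s + h) k := by
  induction k with
  | zero => simp [zeta_zero]
  | succ k ih => rw [← add_assoc, zeta_succ, ih, zeta_succ, mul_assoc, add_assoc]

theorem zeta_one (s : ℕ) : zeta s 1 = H s := by
  rw [zeta_succ, zeta_zero, one_mul, add_zero]

theorem zeta_succ' (s h : ℕ) : zeta s (h + 1) = H s * zeta (s + 1) h := by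
  rw [add_comm h 1, zeta_add, zeta_one]

theorem Ta_zeta (i s h : ℕ) : Ta i (zeta s h) = zeta s h := by
  induction h with
  | zero => simp [zeta_zero]
  | succ h ih => rw [zeta_succ, map_mul, ih, Ta_H]

theorem Tb_zeta (i s h : ℕ) : Tb i (zeta s h) = zeta s h := by
  induction h with
  | zero => simp [zeta_zero]
  | succ h ih => rw [zeta_succ, map_mul, ih, Tb_H]

theorem P_zeta_lt {i s : ℕ} (h : ℕ) (hi : i + 1 < s) : P i (zeta s h) = zeta s h := by
  induction h with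
  | zero => simp [zeta_zero]
  | succ h ih => rw [zeta_succ, map_mul, ih, P_H_ne (by omega) (by omega)]

theorem P_zeta_ge {i s h : ℕ} (hi : s + h ≤ i) : P i (zeta s h) = zeta s h := by
  induction h with
  | zero => simp [zeta_zero]
  | succ h ih => rw [zeta_succ, map_mul, ih (by omega), P_H_ne (by omega) (by omega)]

theorem P_zeta {i s h : ℕ} (h1 : s ≤ i) (h2 : i + 1 < s + h) : P i (zeta s h) = zeta s h := by
  obtain ⟨k, rfl⟩ := Nat.exists_eq_add_of_le h1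
  obtain ⟨m, hm⟩ : ∃ m, h = k + 1 + 1 + m := ⟨h - (k + 2), by omega⟩
  subst hm
  rw [zeta_add, zeta_succ, zeta_succ, map_mul, mul_assoc, map_mul, P_zeta_ge (by omega)]
  have e1 : s + (k + 1) = s + k + 1 := by omega
  rw [e1, P_HH, P_zeta_lt _ (by omega)]

/-! ## Membership in `M s h` -/

theorem Ta_mem_M {i s h : ℕ} (h1 : s ≤ i) (h2 : i < s + h) : Ta i ∈ M s h :=
  Subgroup.subset_closure (Or.inl ⟨i, h1, h2, Or.inl rfl⟩)
theorem Tb_mem_M {i s h : ℕ} (h1 : s ≤ i) (h2 : i < s + h) : Tb i ∈ M s h :=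
  Subgroup.subset_closure (Or.inl ⟨i, h1, h2, Or.inr rfl⟩)
theorem P_mem_M {i s h : ℕ} (h1 : s ≤ i) (h2 : i + 1 < s + h) : P i ∈ M s h :=
  Subgroup.subset_closure (Or.inr ⟨i, h1, h2, rfl⟩)
theorem w_mem_M {i s h : ℕ} (h1 : s ≤ i) (h2 : i < s + h) : w i ∈ M s h :=
  mul_mem (Ta_mem_M h1 h2) (inv_mem (Tb_mem_M h1 h2))
theorem iota_mem_M {i s h : ℕ} (h1 : s ≤ i) (h2 : i < s + h) : iota i ∈ M s h :=
  mul_mem (mul_mem (w_mem_M h1 h2) (w_mem_M h1 h2)) (w_mem_M h1 h2)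

/-- `M s h ≤ K` as soon as the generators are in `K`. -/
theorem M_le {s h : ℕ} {K : Subgroup (MulAut F)} (hTa : ∀ i, s ≤ i → i < s + h → Ta i ∈ K)
    (hTb : ∀ i, s ≤ i → i < s + h → Tb i ∈ K) (hP : ∀ i, s ≤ i → i + 1 < s + h → P i ∈ K) :
    M s h ≤ K := by
  unfold M
  rw [Subgroup.closure_le]
  rintro φ (⟨i, h1, h2, rfl | rfl⟩ | ⟨i, h1, h2, rfl⟩)
  · exact hTa i h1 h2
  · exact hTb i h1 h2
  · exact hP i h1 h2

theorem M_mono {s h s' h' : ℕ} (h1 : s ≤ s') (h2 : s' + h' ≤ s + h) : M s' h' ≤ M s h :=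
  M_le (fun _ _ _ => Ta_mem_M (by omega) (by omega)) (fun _ _ _ => Tb_mem_M (by omega) (by omega))
    (fun _ _ _ => P_mem_M (by omega) (by omega))

/-- Automorphisms of `F` fixing `zeta s h` and all letters outside the handles `s, ..., s+h-1`. -/
def StF (s h : ℕ) : Subgroup (MulAut F) where
  carrier := {φ | φ (zeta s h) = zeta s h ∧
    ∀ n, (n < 2 * s ∨ 2 * (s + h) ≤ n) → φ (FreeGroup.of n) = FreeGroup.of n}
  one_mem' := ⟨rfl, fun _ _ => rfl⟩
  mul_mem' := fun {φ ψ} hφ hψ => ⟨by rw [MulAut.mul_apply, hψ.1, hφ.1], fun n hn => by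
    rw [MulAut.mul_apply, hψ.2 n hn, hφ.2 n hn]⟩
  inv_mem' := fun {φ} hφ => ⟨aut_inv_fix hφ.1, fun n hn => aut_inv_fix (hφ.2 n hn)⟩

theorem M_le_StF (s h : ℕ) : M s h ≤ StF s h :=
  M_le (fun i _ _ => ⟨Ta_zeta _ _ _, fun n hn => Ta_of_ne (by omega)⟩)
    (fun i _ _ => ⟨Tb_zeta _ _ _, fun n hn => Tb_of_ne (by omega)⟩)
    (fun i h1 h2 => ⟨P_zeta h1 h2, fun n hn => P_of_ne (by omega) (by omega) (by omega)⟩)

theorem M_zeta {s h : ℕ} {φ : MulAut F} (hφ : φ ∈ M s h) : φ (zeta s h) = zeta s h :=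
  (M_le_StF s h hφ).1

theorem M_fix_of {s h : ℕ} {φ : MulAut F} (hφ : φ ∈ M s h) {n : ℕ}
    (hn : n < 2 * s ∨ 2 * (s + h) ≤ n) : φ (FreeGroup.of n) = FreeGroup.of n :=
  (M_le_StF s h hφ).2 n hn

theorem M_fix_a {s h : ℕ} {φ : MulAut F} (hφ : φ ∈ M s h) {i : ℕ} (hi : i < s ∨ s + h ≤ i) :
    φ (a i) = a i := M_fix_of hφ (by omega)

theorem M_fix_b {s h : ℕ} {φ : MulAut F} (hφ : φ ∈ M s h) {i : ℕ} (hi : i < s ∨ s + h ≤ i) :
    φ (b i) = b i := M_fix_of hφ (by omega)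

/-! ## The subgroup of `F` generated by the letters of some handles -/

/-- The subgroup of `F` generated by the letters of the handles `s, ..., s+h-1`. -/
def FS (s h : ℕ) : Subgroup F :=
  Subgroup.closure {x | ∃ n, 2 * s ≤ n ∧ n < 2 * (s + h) ∧ x = FreeGroup.of n}

theorem of_mem_FS {s h n : ℕ} (h1 : 2 * s ≤ n) (h2 : n < 2 * (s + h)) :
    (FreeGroup.of n : F) ∈ FS s h := Subgroup.subset_closure ⟨n, h1, h2, rfl⟩

theorem a_mem_FS {s h i : ℕ} (h1 : s ≤ i) (h2 : i < s + h) : a i ∈ FS s h :=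
  of_mem_FS (by omega) (by omega)

theorem b_mem_FS {s h i : ℕ} (h1 : s ≤ i) (h2 : i < s + h) : b i ∈ FS s h :=
  of_mem_FS (by omega) (by omega)

theorem FS_le {s h : ℕ} {K : Subgroup F} (ha : ∀ i, s ≤ i → i < s + h → a i ∈ K)
    (hb : ∀ i, s ≤ i → i < s + h → b i ∈ K) : FS s h ≤ K := by
  unfold FS
  rw [Subgroup.closure_le]
  rintro x ⟨n, h1, h2, rfl⟩
  rcases letter_cases n with ⟨h, hn⟩ | ⟨h, hn⟩
  · rw [h]; exact ha _ (by omega) (by omega)
  · rw [h]; exact hb _ (by omega) (by omega)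

theorem FS_mono {s h s' h' : ℕ} (h1 : s ≤ s') (h2 : s' + h' ≤ s + h) : FS s' h' ≤ FS s h :=
  FS_le (fun _ _ _ => a_mem_FS (by omega) (by omega)) (fun _ _ _ => b_mem_FS (by omega) (by omega))

theorem H_mem_FS {s h i : ℕ} (h1 : s ≤ i) (h2 : i < s + h) : H i ∈ FS s h :=
  mul_mem (mul_mem (mul_mem (a_mem_FS h1 h2) (b_mem_FS h1 h2)) (inv_mem (a_mem_FS h1 h2)))
    (inv_mem (b_mem_FS h1 h2))

theorem d_mem_FS {s h i : ℕ} (h1 : s ≤ i) (h2 : i < s + h) : d i ∈ FS s h :=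
  mul_mem (mul_mem (b_mem_FS h1 h2) (inv_mem (a_mem_FS h1 h2))) (inv_mem (b_mem_FS h1 h2))

theorem zeta_mem_FS {s h s' h' : ℕ} (h1 : s ≤ s') (h2 : s' + h' ≤ s + h) :
    zeta s' h' ∈ FS s h := by
  induction h' with
  | zero => rw [zeta_zero]; exact one_mem _
  | succ k ih => rw [zeta_succ]; exact mul_mem (ih (by omega)) (H_mem_FS (by omega) (by omega))

/-- automorphisms mapping `FS s h` into itself, with their inverses -/
def PresFS (s h : ℕ) : Subgroup (MulAut F) where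
  carrier := {φ | (∀ x ∈ FS s h, φ x ∈ FS s h) ∧ ∀ x ∈ FS s h, φ⁻¹ x ∈ FS s h}
  one_mem' := ⟨fun _ h => h, fun x h => by simpa using h⟩
  mul_mem' := fun {φ ψ} hφ hψ => ⟨fun x hx => hφ.1 _ (hψ.1 _ hx), fun x hx => by
    rw [mul_inv_rev]; exact hψ.2 _ (hφ.2 _ hx)⟩
  inv_mem' := fun {φ} hφ => ⟨hφ.2, fun x hx => by rw [inv_inv]; exact hφ.1 x hx⟩

theorem mem_PresFS_of {s h : ℕ} {φ : MulAut F}
    (h1 : ∀ n, 2 * s ≤ n → n < 2 * (s + h) → φ (FreeGroup.of n) ∈ FS s h)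
    (h2 : ∀ n, 2 * s ≤ n → n < 2 * (s + h) → φ⁻¹ (FreeGroup.of n) ∈ FS s h) :
    φ ∈ PresFS s h := by
  constructor
  · have : FS s h ≤ (FS s h).comap φ.toMonoidHom := by
      conv_lhs => unfold FS
      rw [Subgroup.closure_le]
      rintro x ⟨n, hn1, hn2, rfl⟩
      exact h1 n hn1 hn2
    exact this
  · have : FS s h ≤ (FS s h).comap (φ⁻¹).toMonoidHom := by
      conv_lhs => unfold FS
      rw [Subgroup.closure_le]
      rintro x ⟨n, hn1, hn2, rfl⟩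
      exact h2 n hn1 hn2
    exact this

theorem taF_mem_FS {s h i n : ℕ} (h1 : s ≤ i) (h2 : i < s + h) (n1 : 2 * s ≤ n)
    (n2 : n < 2 * (s + h)) : taF i n ∈ FS s h ∧ taG i n ∈ FS s h := by
  unfold taF taG
  have ha := a_mem_FS h1 h2
  have hb := b_mem_FS h1 h2
  constructor
  · split_ifs
    · exact mul_mem hb ha
    · exact of_mem_FS n1 n2
  · split_ifs
    · exact mul_mem hb (inv_mem ha)
    · exact of_mem_FS n1 n2

theorem tbF_mem_FS {s h i n : ℕ} (h1 : s ≤ i) (h2 : i < s + h) (n1 : 2 * s ≤ n)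
    (n2 : n < 2 * (s + h)) : tbF i n ∈ FS s h ∧ tbG i n ∈ FS s h := by
  unfold tbF tbG
  have ha := a_mem_FS h1 h2
  have hb := b_mem_FS h1 h2
  constructor
  · split_ifs
    · exact mul_mem ha hb
    · exact of_mem_FS n1 n2
  · split_ifs
    · exact mul_mem ha (inv_mem hb)
    · exact of_mem_FS n1 n2

theorem pF_mem_FS {s h i n : ℕ} (h1 : s ≤ i) (h2 : i + 1 < s + h) (n1 : 2 * s ≤ n)
    (n2 : n < 2 * (s + h)) : pF i n ∈ FS s h ∧ pG i n ∈ FS s h := by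
  unfold pF pG
  have hb := b_mem_FS h1 (show i < s + h by omega)
  have hd := d_mem_FS h1 (show i < s + h by omega)
  have hx := a_mem_FS (show s ≤ i + 1 by omega) h2
  have hy := b_mem_FS (show s ≤ i + 1 by omega) h2
  constructor
  · split_ifs
    · exact mul_mem (inv_mem hx) hb
    · exact mul_mem (mul_mem (mul_mem (mul_mem (inv_mem hx) (inv_mem hd)) hx) hd) hx
    · exact mul_mem (mul_mem (mul_mem hy (inv_mem hx)) hd) hx
    · exact of_mem_FS n1 n2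
  · split_ifs
    · exact mul_mem (mul_mem (mul_mem hd hx) (inv_mem hd)) hb
    · exact mul_mem (mul_mem hd hx) (inv_mem hd)
    · exact mul_mem hy (inv_mem hd)
    · exact of_mem_FS n1 n2

theorem M_le_PresFS (s h : ℕ) : M s h ≤ PresFS s h := by
  refine M_le (fun i h1 h2 => mem_PresFS_of (fun n n1 n2 => ?_) (fun n n1 n2 => ?_))
    (fun i h1 h2 => mem_PresFS_of (fun n n1 n2 => ?_) (fun n n1 n2 => ?_))
    (fun i h1 h2 => mem_PresFS_of (fun n n1 n2 => ?_) (fun n n1 n2 => ?_))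
  · rw [Ta_of]; exact (taF_mem_FS h1 h2 n1 n2).1
  · rw [Ta_inv_of]; exact (taF_mem_FS h1 h2 n1 n2).2
  · rw [Tb_of]; exact (tbF_mem_FS h1 h2 n1 n2).1
  · rw [Tb_inv_of]; exact (tbF_mem_FS h1 h2 n1 n2).2
  · rw [P_of]; exact (pF_mem_FS h1 h2 n1 n2).1
  · rw [P_inv_of]; exact (pF_mem_FS h1 h2 n1 n2).2

/-- `M s h` preserves `FS s h`. -/
theorem M_FS {s h : ℕ} {φ : MulAut F} (hφ : φ ∈ M s h) {x : F} (hx : x ∈ FS s h) :
    φ x ∈ FS s h := (M_le_PresFS s h hφ).1 x hx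

theorem M_FS_iff {s h : ℕ} {φ : MulAut F} (hφ : φ ∈ M s h) {x : F} :
    φ x ∈ FS s h ↔ x ∈ FS s h := by
  constructor
  · intro hx
    have := (M_le_PresFS s h hφ).2 _ hx
    rwa [MulAut.inv_apply_self] at this
  · exact M_FS hφ

/-- `M s h` fixes the words in the other letters. -/
theorem M_fix_FS {s h s' h' : ℕ} {φ : MulAut F} (hφ : φ ∈ M s h)
    (hd : s' + h' ≤ s ∨ s + h ≤ s') {x : F} (hx : x ∈ FS s' h') : φ x = x := by
  have : FS s' h' ≤ MonoidHom.eqLocus φ.toMonoidHom (MonoidHom.id F) := by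
    unfold FS
    rw [Subgroup.closure_le]
    rintro x ⟨n, hn1, hn2, rfl⟩
    exact M_fix_of hφ (by omega)
  exact this hx

theorem M_fix_H {s h : ℕ} {φ : MulAut F} (hφ : φ ∈ M s h) {i : ℕ} (hi : i < s ∨ s + h ≤ i) :
    φ (H i) = H i :=
  M_fix_FS (s' := i) (h' := 1) hφ (by omega) (H_mem_FS (by omega) (by omega))

theorem M_fix_zeta {s h s' h' : ℕ} {φ : MulAut F} (hφ : φ ∈ M s h)
    (hd : s' + h' ≤ s ∨ s + h ≤ s') : φ (zeta s' h') = zeta s' h' :=
  M_fix_FS hφ hd (zeta_mem_FS le_rfl le_rfl)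

/-- two automorphisms in `M s h` that agree on the letters of the handles `s..s+h-1` are equal -/
theorem M_ext {s h : ℕ} {φ ψ : MulAut F} (hφ : φ ∈ M s h) (hψ : ψ ∈ M s h)
    (ha : ∀ i, s ≤ i → i < s + h → φ (a i) = ψ (a i))
    (hb : ∀ i, s ≤ i → i < s + h → φ (b i) = ψ (b i)) : φ = ψ := by
  apply aut_ext_ab
  · intro j
    by_cases hj : s ≤ j ∧ j < s + h
    · exact ha j hj.1 hj.2
    · rw [M_fix_a hφ (by omega), M_fix_a hψ (by omega)]
  · intro j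
    by_cases hj : s ≤ j ∧ j < s + h
    · exact hb j hj.1 hj.2
    · rw [M_fix_b hφ (by omega), M_fix_b hψ (by omega)]

/-- `M`'s of disjoint ranges of handles commute. -/
theorem M_commute {s h s' h' : ℕ} {φ ψ : MulAut F} (hφ : φ ∈ M s h) (hψ : ψ ∈ M s' h')
    (hd : s' + h' ≤ s ∨ s + h ≤ s') : φ * ψ = ψ * φ := by
  apply aut_ext_of
  intro n
  rw [MulAut.mul_apply, MulAut.mul_apply]
  by_cases h1 : 2 * s ≤ n ∧ n < 2 * (s + h)
  · have hn : (FreeGroup.of n : F) ∈ FS s h := of_mem_FS h1.1 h1.2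
    rw [M_fix_FS hψ (by omega) hn, M_fix_FS hψ (by omega) (M_FS hφ hn)]
  · rw [M_fix_of hφ (show n < 2 * s ∨ 2 * (s + h) ≤ n by omega)]
    by_cases h2 : 2 * s' ≤ n ∧ n < 2 * (s' + h')
    · have hn : (FreeGroup.of n : F) ∈ FS s' h' := of_mem_FS h2.1 h2.2
      rw [M_fix_FS hφ hd (M_FS hψ hn)]
    · rw [M_fix_of hψ (show n < 2 * s' ∨ 2 * (s' + h') ≤ n by omega),
        M_fix_of hφ (show n < 2 * s ∨ 2 * (s + h) ≤ n by omega)]

/-! ## The abelianisation -/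

theorem cl_of (n : ℕ) : cl (FreeGroup.of n) = Multiplicative.ofAdd (Finsupp.single n 1) := by
  simp [cl]

theorem cl_a (i : ℕ) : cl (a i) = Multiplicative.ofAdd (Finsupp.single (2 * i) 1) := cl_of _

theorem cl_b (i : ℕ) : cl (b i) = Multiplicative.ofAdd (Finsupp.single (2 * i + 1) 1) := cl_of _

theorem cl_H (i : ℕ) : cl (H i) = 1 := by
  simp only [H, map_mul, map_inv]
  rw [mul_right_comm (cl (a i)) (cl (b i))]
  simp

theorem cl_d (i : ℕ) : cl (d i) = (cl (a i))⁻¹ := by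
  simp only [d, map_mul, map_inv]
  rw [mul_right_comm]
  simp

theorem cl_zeta (s h : ℕ) : cl (zeta s h) = 1 := by
  induction h with
  | zero => rw [zeta_zero, map_one]
  | succ h ih => rw [zeta_succ, map_mul, ih, cl_H, one_mul]

theorem mem_IA {φ : MulAut F} : φ ∈ IA ↔ ∀ x, cl (φ x) = cl x := Iff.rfl

theorem mem_IA_iff_of {φ : MulAut F} :
    φ ∈ IA ↔ ∀ n, cl (φ (FreeGroup.of n)) = cl (FreeGroup.of n) := by
  constructor
  · intro h n; exact h _
  · intro h x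
    have : cl.comp φ.toMonoidHom = cl := hom_ext_of h
    exact DFunLike.congr_fun this x

theorem mem_IA_iff {φ : MulAut F} :
    φ ∈ IA ↔ (∀ j, cl (φ (a j)) = cl (a j)) ∧ ∀ j, cl (φ (b j)) = cl (b j) := by
  constructor
  · intro h; exact ⟨fun j => h _, fun j => h _⟩
  · rintro ⟨ha, hb⟩
    rw [mem_IA_iff_of]
    intro n
    rcases letter_cases n with ⟨h, -⟩ | ⟨h, -⟩
    · rw [h, ha]
    · rw [h, hb]

theorem mem_Tor {s h : ℕ} {φ : MulAut F} : φ ∈ Tor s h ↔ φ ∈ M s h ∧ φ ∈ IA := Iff.rfl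

theorem Tor_le_M (s h : ℕ) : Tor s h ≤ M s h := inf_le_left

theorem Tor_le_IA (s h : ℕ) : Tor s h ≤ IA := inf_le_right

theorem Tor_mono {s h s' h' : ℕ} (h1 : s ≤ s') (h2 : s' + h' ≤ s + h) : Tor s' h' ≤ Tor s h :=
  inf_le_inf_right _ (M_mono h1 h2)

/-- `IA` is normal -/
instance IA_normal : IA.Normal where
  conj_mem := fun n hn g x => by
    -- the induced map of `cl` by `g`
    have hker : ∀ y : F, cl y = 1 → cl (g y) = 1 := by
      intro y hy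
      have hr : ∃ r : Multiplicative (ℕ →₀ ℤ) →* Multiplicative (ℕ →₀ ℤ),
          r.comp cl = cl.comp g.toMonoidHom := by
        refine ⟨AddMonoidHom.toMultiplicative (Finsupp.liftAddHom
          (fun n => (zmultiplesHom (ℕ →₀ ℤ)) (Multiplicative.toAdd (cl (g (FreeGroup.of n)))))), ?_⟩
        apply hom_ext_of
        intro n
        rw [MonoidHom.comp_apply, cl_of]
        simp
      obtain ⟨r, hr⟩ := hr
      have h1 := DFunLike.congr_fun hr y
      rw [MonoidHom.comp_apply, hy, map_one] at h1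
      exact h1.symm
    have h1 : cl (n (g⁻¹ x) * (g⁻¹ x)⁻¹) = 1 := by
      rw [map_mul, map_inv, hn]; simp
    have h2 := hker _ h1
    rw [map_mul, map_inv, map_mul, map_inv, MulAut.apply_inv_self, mul_inv_eq_one] at h2
    exact h2

/-- conjugating `Tor s h` by `M s h` -/
theorem Tor_conj {s h : ℕ} {φ θ : MulAut F} (hφ : φ ∈ Tor s h) (hθ : θ ∈ M s h) :
    θ * φ * θ⁻¹ ∈ Tor s h :=
  ⟨(M s h).mul_mem ((M s h).mul_mem hθ hφ.1) ((M s h).inv_mem hθ), IA_normal.conj_mem φ hφ.2 θ⟩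

/-- the class of an element of `F` in the abelianisation is determined by `cl` -/
theorem cl_eq_iff {x y : F} : cl x = cl y ↔ Abelianization.of x = Abelianization.of y := by
  constructor
  · intro h
    obtain ⟨r, hr⟩ : ∃ r : Multiplicative (ℕ →₀ ℤ) →* Abelianization F,
        r.comp cl = Abelianization.of := by
      refine ⟨AddMonoidHom.toMultiplicativeLeft (Finsupp.liftAddHom
        (fun n => (zmultiplesHom (Additive (Abelianization F)))
          (Additive.ofMul (Abelianization.of (FreeGroup.of n))))), ?_⟩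
      apply hom_ext_of
      intro n
      rw [MonoidHom.comp_apply, cl_of]
      simp
    have h1 := congrArg r h
    have h2 := DFunLike.congr_fun hr x
    have h3 := DFunLike.congr_fun hr y
    rw [MonoidHom.comp_apply] at h2 h3
    rw [← h2, ← h3, h1]
  · intro h
    have := congrArg (Abelianization.lift cl) h
    simpa using this

theorem cl_eq_one_iff {x : F} : cl x = 1 ↔ x ∈ commutator F := by
  have h := cl_eq_iff (x := x) (y := 1)
  rw [map_one, map_one] at h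
  rw [h]
  exact QuotientGroup.eq_one_iff x

end Pool.Agent.Torelli
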