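import Mathlib

/-!
# Torelli / Refl : a kernel-friendly checker for identities between automorphisms of free groups

Letters are natural numbers: generator `i` is `2 * i`, its inverse is `2 * i + 1`.
A word is a `List ℕ`; `evalW e w` is its value in a group `G` under `e : ℕ → G`.
An endomorphism of the subgroup generated by `e 0, ..., e (m-1)` is given by its list of image words.
`Implements e m A im` says that `A (e i)` is the value of the `i`-th word of `im` for all `i < m`.
The lists are composed by `comp` (with free reduction), and `implements_unique` compares two results.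
-/

set_option autoImplicit false

namespace Pool.Torelli.Refl

/-- The value of a letter. -/
def evalL {G : Type*} [Group G] (e : ℕ → G) (x : ℕ) : G :=
  bif Nat.beq (x % 2) 0 then e (x / 2) else (e (x / 2))⁻¹

/-- The value of a word. -/
def evalW {G : Type*} [Group G] (e : ℕ → G) (w : List ℕ) : G :=
  (w.map (evalL e)).prod

/-- The inverse letter. -/
def invL (x : ℕ) : ℕ := Nat.xor x 1

/-- Push a letter on a stack (a reversed reduced word), cancelling if possible. -/
def push (st : List ℕ) (x : ℕ) : List ℕ :=
  match st with
  | [] => [x]
  | y :: t => bif Nat.beq y (invL x) then t else x :: y :: t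

/-- The inverse word. -/
def invW (w : List ℕ) : List ℕ := (w.map invL).reverse

/-- The image of a letter under an image list. -/
def imgL (im : List (List ℕ)) (x : ℕ) : List ℕ :=
  bif Nat.beq (x % 2) 0 then im.getD (x / 2) [] else invW (im.getD (x / 2) [])

/-- Push a whole word on a stack. -/
def pushW (st : List ℕ) : List ℕ → List ℕ
  | [] => st
  | x :: w => pushW (push st x) w

/-- Push the image of a word on a stack. -/
def pushImg (im : List (List ℕ)) (st : List ℕ) : List ℕ → List ℕ
  | [] => st
  | x :: w => pushImg im (pushW st (imgL im x)) w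

/-- The (freely reduced) image of a word. -/
def appl (im : List (List ℕ)) (w : List ℕ) : List ℕ := (pushImg im [] w).reverse

/-- The composite `f ∘ g` of two image lists. -/
def comp (f g : List (List ℕ)) : List (List ℕ) := g.map (appl f)

/-- All letters of a word are `< 2 * m`. -/
def wfW (m : ℕ) (w : List ℕ) : Bool := w.all (fun x => Nat.blt x (2 * m))

/-- An image list has length at least `m` and words in the first `m` generators. -/
def wf (m : ℕ) (f : List (List ℕ)) : Bool := Nat.ble m f.length && f.all (wfW m)

section
variable {G : Type*} [Group G] (e : ℕ → G)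

@[simp] theorem evalW_nil : evalW e [] = 1 := rfl

@[simp] theorem evalW_cons (x : ℕ) (w : List ℕ) : evalW e (x :: w) = evalL e x * evalW e w := rfl

theorem evalW_append (u v : List ℕ) : evalW e (u ++ v) = evalW e u * evalW e v := by
  simp [evalW]

theorem evalL_even (i : ℕ) : evalL e (2 * i) = e i := by
  have h1 : (2 * i) % 2 = 0 := by omega
  have h2 : (2 * i) / 2 = i := by omega
  simp [evalL, h1, h2]

theorem evalL_odd (i : ℕ) : evalL e (2 * i + 1) = (e i)⁻¹ := by
  have h1 : (2 * i + 1) % 2 = 1 := by omega
  have h2 : (2 * i + 1) / 2 = i := by omega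
  have h3 : Nat.beq 1 0 = false := rfl
  simp [evalL, h1, h2, h3]

theorem invL_even (i : ℕ) : invL (2 * i) = 2 * i + 1 := by
  have : Nat.xor (2 * i) 1 = 2 * i + 1 := by
    have h := Nat.xor_one_of_even (n := 2 * i) (by simp)
    simpa using h
  exact this

theorem invL_odd (i : ℕ) : invL (2 * i + 1) = 2 * i := by
  have : Nat.xor (2 * i + 1) 1 = 2 * i := by
    have h := Nat.xor_one_of_odd (n := 2 * i + 1) (by simp)
    simpa using h
  exact this

theorem evalL_invL (x : ℕ) : evalL e (invL x) = (evalL e x)⁻¹ := by
  rcases Nat.even_or_odd' x with ⟨i, h | h⟩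
  · subst h; rw [invL_even, evalL_odd, evalL_even]
  · subst h; rw [invL_odd, evalL_odd, evalL_even, inv_inv]

theorem evalW_invW (w : List ℕ) : evalW e (invW w) = (evalW e w)⁻¹ := by
  induction w with
  | nil => simp [invW]
  | cons x w ih =>
    have : invW (x :: w) = invW w ++ [invL x] := by simp [invW]
    rw [this, evalW_append, ih]
    simp [evalL_invL]

/-- The value of a stack: the reversed word. -/
def evalS (st : List ℕ) : G := evalW e st.reverse

@[simp] theorem evalS_nil : evalS e [] = 1 := rfl

@[simp] theorem evalS_cons (x : ℕ) (st : List ℕ) : evalS e (x :: st) = evalS e st * evalL e x := by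
  simp [evalS, evalW_append]

theorem evalS_push (st : List ℕ) (x : ℕ) : evalS e (push st x) = evalS e st * evalL e x := by
  cases st with
  | nil => simp [push]
  | cons y t =>
    unfold push
    by_cases h : Nat.beq y (invL x) = true
    · have hy : y = invL x := Nat.eq_of_beq_eq_true h
      simp only [h, cond_true]
      rw [evalS_cons, hy, evalL_invL]
      group
    · simp only [Bool.not_eq_true] at h
      simp only [h, cond_false]
      simp

theorem evalS_pushW (w : List ℕ) : ∀ st : List ℕ, evalS e (pushW st w) = evalS e st * evalW e w := by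
  induction w with
  | nil => intro st; simp [pushW]
  | cons x w ih => intro st; simp [pushW, ih, evalS_push, mul_assoc]

end

/-- `Implements e m A im` : the homomorphism `A` acts on `e 0, ..., e (m-1)` as the image list `im`. -/
def Implements {G H : Type*} [Group G] [Group H] (e : ℕ → G) (e' : ℕ → H) (m : ℕ) (A : G →* H)
    (im : List (List ℕ)) : Prop :=
  ∀ i < m, A (e i) = evalW e' (im.getD i [])

section
variable {G H K : Type*} [Group G] [Group H] [Group K]
variable {e : ℕ → G} {e' : ℕ → H} {e'' : ℕ → K} {m : ℕ}

theorem Implements.imgL {A : G →* H} {im : List (List ℕ)} (h : Implements e e' m A im) {x : ℕ}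
    (hx : x < 2 * m) : A (evalL e x) = evalW e' (Refl.imgL im x) := by
  rcases Nat.even_or_odd' x with ⟨i, hi | hi⟩
  · subst hi
    have h1 : (2 * i) % 2 = 0 := by omega
    have h2 : (2 * i) / 2 = i := by omega
    have h3 : Nat.beq 0 0 = true := rfl
    rw [evalL_even, h i (by omega)]
    simp only [Refl.imgL, h1, h2, h3, cond_true]
  · subst hi
    have h1 : (2 * i + 1) % 2 = 1 := by omega
    have h2 : (2 * i + 1) / 2 = i := by omega
    have h3 : Nat.beq 1 0 = false := rfl
    rw [evalL_odd, map_inv, h i (by omega), ← evalW_invW]
    simp only [Refl.imgL, h1, h2, h3, cond_false]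

theorem Implements.pushImg {A : G →* H} {im : List (List ℕ)} (h : Implements e e' m A im)
    (w : List ℕ) (hw : wfW m w = true) : ∀ st : List ℕ,
      evalS e' (Refl.pushImg im st w) = evalS e' st * A (evalW e w) := by
  induction w with
  | nil => intro st; simp [Refl.pushImg]
  | cons x w ih =>
    intro st
    have hx : x < 2 * m := by
      simp [wfW] at hw
      exact Nat.le_of_ble_eq_true (by simpa [Nat.blt] using hw.1)
    have hw' : wfW m w = true := by
      simp [wfW] at hw ⊢
      exact hw.2
    rw [Refl.pushImg, ih hw', evalS_pushW, evalW_cons, map_mul, h.imgL hx, mul_assoc]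

theorem Implements.appl {A : G →* H} {im : List (List ℕ)} (h : Implements e e' m A im)
    (w : List ℕ) (hw : wfW m w = true) : A (evalW e w) = evalW e' (Refl.appl im w) := by
  have := h.pushImg w hw []
  simp only [evalS_nil, one_mul] at this
  rw [← this]
  simp [evalS, Refl.appl]

theorem Implements.comp {A : H →* K} {B : G →* H} {f g : List (List ℕ)}
    (hA : Implements e' e'' m A f) (hB : Implements e e' m B g) (hg : wf m g = true) :
    Implements e e'' m (A.comp B) (Refl.comp f g) := by
  intro i hi
  have hg1 : m ≤ g.length := by
    simp [wf] at hg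
    exact Nat.le_of_ble_eq_true (by simpa using hg.1)
  have hg2 : ∀ w ∈ g, wfW m w = true := by
    simp [wf] at hg
    exact hg.2
  have hi' : i < g.length := lt_of_lt_of_le hi hg1
  have e1 : g.getD i [] = g[i] := by simp [List.getD, hi']
  have e2 : (Refl.comp f g).getD i [] = Refl.appl f g[i] := by
    simp [Refl.comp, List.getD, hi']
  rw [MonoidHom.comp_apply, hB i hi, e1, hA.appl _ (hg2 _ (List.getElem_mem hi')), e2]

theorem Implements.id (e : ℕ → G) (m : ℕ) (im : List (List ℕ))
    (h : ∀ i < m, im.getD i [] = [2 * i]) : Implements e e m (MonoidHom.id G) im := by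
  intro i hi
  rw [h i hi]
  simp [evalL_even]

/-- Two homomorphisms implemented by the same list agree on `e 0, ..., e (m-1)`. -/
theorem Implements.agree {A B : G →* H} {f g : List (List ℕ)} (hA : Implements e e' m A f)
    (hB : Implements e e' m B g) (hfg : f = g) : ∀ i < m, A (e i) = B (e i) := by
  intro i hi
  rw [hA i hi, hB i hi, hfg]

/-- Two homomorphisms implemented by the same list agree on all words in `e 0, ..., e (m-1)`. -/
theorem Implements.agreeW {A B : G →* H} {f g : List (List ℕ)} (hA : Implements e e' m A f)
    (hB : Implements e e' m B g) (hfg : f = g) (w : List ℕ) (hw : wfW m w = true) :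
    A (evalW e w) = B (evalW e w) := by
  rw [hA.appl w hw, hB.appl w hw, hfg]

end

/-- The composite of a list of image lists (in the order of a product of automorphisms). -/
def compL (m : ℕ) : List (List (List ℕ)) → List (List ℕ)
  | [] => (List.range m).map (fun i => [2 * i])
  | [f] => f
  | f :: g :: l => comp f (compL m (g :: l))

end Pool.Torelli.Refl
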