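import Pool.Agent.Torelli.Defs
import Pool.Agent.Torelli.Refl

/-!
# Torelli / ReflAut : identities between words in `Ta`, `Tb`, `P`, checked by computation

`Gen.A i`, `Gen.B i`, `Gen.C i` stand for `Ta (s+i)`, `Tb (s+i)`, `P (s+i)`, where `s` is an arbitrary shift.
`evWord s w` is the automorphism given by a word `w : List (Gen × Bool)` (`false` = inverse).
`evWord_eq m w1 w2 h s : evWord s w1 = evWord s w2` as soon as `h : chk m w1 w2 = true`
(`by decide +kernel`), where `m` is the number of letters (twice the number of handles used).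
-/

set_option autoImplicit false

namespace Pool.Agent.Torelli

open Pool.Torelli Pool.Torelli.Refl

/-- Names of the generators. -/
inductive Gen where
  | A (i : ℕ)
  | B (i : ℕ)
  | C (i : ℕ)
  deriving DecidableEq

/-- The automorphism named by a generator, at shift `s`. -/
def Gen.ev (s : ℕ) : Gen → MulAut F
  | Gen.A i => Ta (s + i)
  | Gen.B i => Tb (s + i)
  | Gen.C i => P (s + i)

/-- The automorphism of a signed generator. -/
def evL (s : ℕ) (p : Gen × Bool) : MulAut F := bif p.2 then p.1.ev s else (p.1.ev s)⁻¹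

/-- The automorphism of a word. -/
def evWord (s : ℕ) (w : List (Gen × Bool)) : MulAut F := (w.map (evL s)).prod

@[simp] theorem evWord_nil (s : ℕ) : evWord s [] = 1 := rfl
@[simp] theorem evWord_cons (s : ℕ) (p : Gen × Bool) (w : List (Gen × Bool)) :
    evWord s (p :: w) = evL s p * evWord s w := rfl
theorem evWord_append (s : ℕ) (u v : List (Gen × Bool)) :
    evWord s (u ++ v) = evWord s u * evWord s v := by
  simp [evWord]

/-- Image of the letter `n` (relative to the shift) under a signed generator, as a word. -/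
def imgG (p : Gen × Bool) (n : ℕ) : List ℕ :=
  match p.1 with
  | Gen.A i => bif Nat.beq n (2 * i + 1) then (bif p.2 then [4 * i + 2, 4 * i] else [4 * i + 2, 4 * i + 1])
      else [2 * n]
  | Gen.B i => bif Nat.beq n (2 * i) then (bif p.2 then [4 * i, 4 * i + 2] else [4 * i, 4 * i + 3])
      else [2 * n]
  | Gen.C i =>
      bif Nat.beq n (2 * i + 1) then
        (bif p.2 then [4 * i + 5, 4 * i + 2]
         else [4 * i + 2, 4 * i + 1, 4 * i + 3, 4 * i + 4, 4 * i + 2, 4 * i, 4 * i + 3, 4 * i + 2])
      else bif Nat.beq n (2 * i + 2) then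
        (bif p.2 then [4 * i + 5, 4 * i + 2, 4 * i, 4 * i + 3, 4 * i + 4, 4 * i + 2, 4 * i + 1,
            4 * i + 3, 4 * i + 4]
         else [4 * i + 2, 4 * i + 1, 4 * i + 3, 4 * i + 4, 4 * i + 2, 4 * i, 4 * i + 3])
      else bif Nat.beq n (2 * i + 3) then
        (bif p.2 then [4 * i + 6, 4 * i + 5, 4 * i + 2, 4 * i + 1, 4 * i + 3, 4 * i + 4]
         else [4 * i + 6, 4 * i + 2, 4 * i, 4 * i + 3])
      else [2 * n]

/-- The image list of a signed generator on the first `m` letters. -/
def imgs (m : ℕ) (p : Gen × Bool) : List (List ℕ) := (List.range m).map (imgG p)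

/-- The generator only involves letters `< m`. -/
def okG (m : ℕ) (p : Gen × Bool) : Bool :=
  match p.1 with
  | Gen.A i => Nat.blt (2 * i + 1) m
  | Gen.B i => Nat.blt (2 * i + 1) m
  | Gen.C i => Nat.blt (2 * i + 3) m

/-- The image list of a word. -/
def imgWord (m : ℕ) : List (Gen × Bool) → List (List ℕ)
  | [] => (List.range m).map (fun n => [2 * n])
  | p :: w => Refl.comp (imgs m p) (imgWord m w)

/-- The checker. -/
def chk (m : ℕ) (w1 w2 : List (Gen × Bool)) : Bool :=
  w1.all (okG m) && w2.all (okG m) && decide (imgWord m w1 = imgWord m w2)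

/-- The letters of the block that starts at handle `s`. -/
def eS (s : ℕ) (n : ℕ) : F := FreeGroup.of (2 * s + n)

theorem inv_apply_of_mkAut (f g : ℕ → F) (h1 h2) (n : ℕ) :
    (mkAut f g h1 h2)⁻¹ (FreeGroup.of n) = g n := by
  have : (mkAut f g h1 h2)⁻¹ = (mkAut f g h1 h2).symm := rfl
  rw [this, mkAut_symm_of]

theorem eL_even (s k : ℕ) (n : ℕ) (h : n = 2 * k) : evalL (eS s) n = FreeGroup.of (2 * s + k) := by
  subst h; rw [evalL_even]; rfl

theorem eL_odd (s k : ℕ) (n : ℕ) (h : n = 2 * k + 1) :
    evalL (eS s) n = (FreeGroup.of (2 * s + k))⁻¹ := by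
  subst h; rw [evalL_odd]; rfl

theorem evL_eS (s : ℕ) (p : Gen × Bool) (n : ℕ) : evL s p (eS s n) = evalW (eS s) (imgG p n) := by
  obtain ⟨q, c⟩ := p
  have hid : evalW (eS s) [2 * n] = eS s n := by simp [evalL_even]
  cases q with
  | A i =>
    by_cases h : n = 2 * i + 1
    · subst h
      have hb : Nat.beq (2 * i + 1) (2 * i + 1) = true := Nat.beq_refl _
      have e1 : eS s (2 * i + 1) = FreeGroup.of (2 * (s + i) + 1) := by
        unfold eS; congr 1; ring
      cases c
      · simp only [evL, cond_false, Gen.ev, imgG, hb, cond_true, evalW_cons, evalW_nil, mul_one,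
          eL_even s (2 * i + 1) (4 * i + 2) (by ring), eL_odd s (2 * i) (4 * i + 1) (by ring)]
        rw [e1, Ta, inv_apply_of_mkAut, taG_b, a, b]
        congr 2 <;> ring_nf
      · simp only [evL, cond_true, Gen.ev, imgG, hb, evalW_cons, evalW_nil, mul_one,
          eL_even s (2 * i + 1) (4 * i + 2) (by ring), eL_even s (2 * i) (4 * i) (by ring)]
        rw [e1, Ta, mkAut_of, taF_b, a, b]
        congr 2 <;> ring_nf
    · have hb : Nat.beq n (2 * i + 1) = false := by
        rw [Bool.eq_false_iff]; intro hh; exact h (Nat.eq_of_beq_eq_true hh)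
      have hn : ¬ (2 * s + n = 2 * (s + i) + 1) := by omega
      simp only [imgG, hb, cond_false, hid]
      cases c
      · simp only [evL, cond_false, Gen.ev, Ta, eS]
        rw [inv_apply_of_mkAut]; simp [taG, hn]
      · simp only [evL, cond_true, Gen.ev, Ta, eS]
        rw [mkAut_of]; simp [taF, hn]
  | B i =>
    by_cases h : n = 2 * i
    · subst h
      have hb : Nat.beq (2 * i) (2 * i) = true := Nat.beq_refl _
      have e1 : eS s (2 * i) = FreeGroup.of (2 * (s + i)) := by
        unfold eS; congr 1; ring
      cases c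
      · simp only [evL, cond_false, Gen.ev, imgG, hb, cond_true, evalW_cons, evalW_nil, mul_one,
          eL_even s (2 * i) (4 * i) (by ring), eL_odd s (2 * i + 1) (4 * i + 3) (by ring)]
        rw [e1, Tb, inv_apply_of_mkAut, tbG_a, a, b]
        congr 2 <;> ring_nf
      · simp only [evL, cond_true, Gen.ev, imgG, hb, evalW_cons, evalW_nil, mul_one,
          eL_even s (2 * i) (4 * i) (by ring), eL_even s (2 * i + 1) (4 * i + 2) (by ring)]
        rw [e1, Tb, mkAut_of, tbF_a, a, b]
        congr 2 <;> ring_nf
    · have hb : Nat.beq n (2 * i) = false := by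
        rw [Bool.eq_false_iff]; intro hh; exact h (Nat.eq_of_beq_eq_true hh)
      have hn : ¬ (2 * s + n = 2 * (s + i)) := by omega
      simp only [imgG, hb, cond_false, hid]
      cases c
      · simp only [evL, cond_false, Gen.ev, Tb, eS]
        rw [inv_apply_of_mkAut]; simp [tbG, hn]
      · simp only [evL, cond_true, Gen.ev, Tb, eS]
        rw [mkAut_of]; simp [tbF, hn]
  | C i =>
    by_cases h : n = 2 * i + 1
    · subst h
      have hb : Nat.beq (2 * i + 1) (2 * i + 1) = true := Nat.beq_refl _
      have e1 : eS s (2 * i + 1) = FreeGroup.of (2 * (s + i) + 1) := by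
        unfold eS; congr 1; ring
      cases c
      · simp only [evL, cond_false, Gen.ev, imgG, hb, cond_true, evalW_cons, evalW_nil, mul_one,
          eL_even s (2 * i + 1) (4 * i + 2) (by ring), eL_odd s (2 * i) (4 * i + 1) (by ring),
          eL_odd s (2 * i + 1) (4 * i + 3) (by ring), eL_even s (2 * i + 2) (4 * i + 4) (by ring),
          eL_even s (2 * i) (4 * i) (by ring)]
        rw [e1, P, inv_apply_of_mkAut, pG_b, d, a, a, b,
          show 2 * (s + i) + 1 = 2 * s + (2 * i + 1) by ring,
          show 2 * (s + i) = 2 * s + 2 * i by ring,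
          show 2 * (s + i + 1) = 2 * s + (2 * i + 2) by ring]
        group
      · simp only [evL, cond_true, Gen.ev, imgG, hb, evalW_cons, evalW_nil, mul_one,
          eL_even s (2 * i + 1) (4 * i + 2) (by ring), eL_odd s (2 * i + 2) (4 * i + 5) (by ring)]
        rw [e1, P, mkAut_of, pF_b, a, b,
          show 2 * (s + i) + 1 = 2 * s + (2 * i + 1) by ring,
          show 2 * (s + i + 1) = 2 * s + (2 * i + 2) by ring]
    · have hb : Nat.beq n (2 * i + 1) = false := by
        rw [Bool.eq_false_iff]; intro hh; exact h (Nat.eq_of_beq_eq_true hh)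
      by_cases h2 : n = 2 * i + 2
      · subst h2
        have hb2 : Nat.beq (2 * i + 2) (2 * i + 2) = true := Nat.beq_refl _
        have e1 : eS s (2 * i + 2) = FreeGroup.of (2 * (s + i + 1)) := by
          unfold eS; congr 1; ring
        cases c
        · simp only [evL, cond_false, Gen.ev, imgG, hb, hb2, cond_true, evalW_cons, evalW_nil, mul_one,
            eL_even s (2 * i + 1) (4 * i + 2) (by ring), eL_odd s (2 * i) (4 * i + 1) (by ring),
            eL_odd s (2 * i + 1) (4 * i + 3) (by ring), eL_even s (2 * i + 2) (4 * i + 4) (by ring),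
            eL_even s (2 * i) (4 * i) (by ring)]
          rw [e1, P, inv_apply_of_mkAut, pG_x, d, a, a, b,
            show 2 * (s + i) + 1 = 2 * s + (2 * i + 1) by ring,
            show 2 * (s + i) = 2 * s + 2 * i by ring,
            show 2 * (s + i + 1) = 2 * s + (2 * i + 2) by ring]
          group
        · simp only [evL, cond_true, Gen.ev, imgG, hb, hb2, cond_false, evalW_cons, evalW_nil, mul_one,
            eL_even s (2 * i + 1) (4 * i + 2) (by ring), eL_odd s (2 * i + 2) (4 * i + 5) (by ring),
            eL_odd s (2 * i) (4 * i + 1) (by ring),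
            eL_odd s (2 * i + 1) (4 * i + 3) (by ring), eL_even s (2 * i + 2) (4 * i + 4) (by ring),
            eL_even s (2 * i) (4 * i) (by ring)]
          rw [e1, P, mkAut_of, pF_x, d, a, a, b,
            show 2 * (s + i) + 1 = 2 * s + (2 * i + 1) by ring,
            show 2 * (s + i) = 2 * s + 2 * i by ring,
            show 2 * (s + i + 1) = 2 * s + (2 * i + 2) by ring]
          group
      · have hb2 : Nat.beq n (2 * i + 2) = false := by
          rw [Bool.eq_false_iff]; intro hh; exact h2 (Nat.eq_of_beq_eq_true hh)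
        by_cases h3 : n = 2 * i + 3
        · subst h3
          have hb3 : Nat.beq (2 * i + 3) (2 * i + 3) = true := Nat.beq_refl _
          have e1 : eS s (2 * i + 3) = FreeGroup.of (2 * (s + i + 1) + 1) := by
            unfold eS; congr 1; ring
          cases c
          · simp only [evL, cond_false, Gen.ev, imgG, hb, hb2, hb3, cond_true, evalW_cons,
              evalW_nil, mul_one,
              eL_even s (2 * i + 1) (4 * i + 2) (by ring), eL_even s (2 * i + 3) (4 * i + 6) (by ring),
              eL_odd s (2 * i + 1) (4 * i + 3) (by ring),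
              eL_even s (2 * i) (4 * i) (by ring)]
            rw [e1, P, inv_apply_of_mkAut, pG_y, d, a, b, b,
              show 2 * (s + i) + 1 = 2 * s + (2 * i + 1) by ring,
              show 2 * (s + i) = 2 * s + 2 * i by ring,
              show 2 * (s + i + 1) + 1 = 2 * s + (2 * i + 3) by ring]
            group
          · simp only [evL, cond_true, Gen.ev, imgG, hb, hb2, hb3, cond_false, evalW_cons,
              evalW_nil, mul_one,
              eL_even s (2 * i + 1) (4 * i + 2) (by ring), eL_even s (2 * i + 3) (4 * i + 6) (by ring),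
              eL_odd s (2 * i + 2) (4 * i + 5) (by ring), eL_odd s (2 * i) (4 * i + 1) (by ring),
              eL_odd s (2 * i + 1) (4 * i + 3) (by ring), eL_even s (2 * i + 2) (4 * i + 4) (by ring)]
            rw [e1, P, mkAut_of, pF_y, d, a, a, b, b,
              show 2 * (s + i) + 1 = 2 * s + (2 * i + 1) by ring,
              show 2 * (s + i) = 2 * s + 2 * i by ring,
              show 2 * (s + i + 1) + 1 = 2 * s + (2 * i + 3) by ring,
              show 2 * (s + i + 1) = 2 * s + (2 * i + 2) by ring]
            group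
        · have hb3 : Nat.beq n (2 * i + 3) = false := by
            rw [Bool.eq_false_iff]; intro hh; exact h3 (Nat.eq_of_beq_eq_true hh)
          have hn1 : ¬ (2 * s + n = 2 * (s + i) + 1) := by omega
          have hn2 : ¬ (2 * s + n = 2 * (s + i + 1)) := by omega
          have hn3 : ¬ (2 * s + n = 2 * (s + i + 1) + 1) := by omega
          simp only [imgG, hb, hb2, hb3, cond_false, hid]
          cases c
          · simp only [evL, cond_false, Gen.ev, P, eS]
            rw [inv_apply_of_mkAut]; simp only [pG, hn1, hn2, hn3, if_false]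
          · simp only [evL, cond_true, Gen.ev, P, eS]
            rw [mkAut_of]; simp only [pF, hn1, hn2, hn3, if_false]

theorem evL_outside (s m : ℕ) (p : Gen × Bool) (hp : okG m p = true) (n : ℕ)
    (hn : n < 2 * s ∨ 2 * s + m ≤ n) : evL s p (FreeGroup.of n) = FreeGroup.of n := by
  obtain ⟨q, c⟩ := p
  cases q with
  | A i =>
    have h0 : 2 * i + 1 < m := by simpa [okG, Nat.blt] using hp
    have h1 : ¬ (n = 2 * (s + i) + 1) := by omega
    cases c
    · simp only [evL, cond_false, Gen.ev, Ta]
      rw [inv_apply_of_mkAut]; simp [taG, h1]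
    · simp only [evL, cond_true, Gen.ev, Ta]
      rw [mkAut_of]; simp [taF, h1]
  | B i =>
    have h0 : 2 * i + 1 < m := by simpa [okG, Nat.blt] using hp
    have h1 : ¬ (n = 2 * (s + i)) := by omega
    cases c
    · simp only [evL, cond_false, Gen.ev, Tb]
      rw [inv_apply_of_mkAut]; simp [tbG, h1]
    · simp only [evL, cond_true, Gen.ev, Tb]
      rw [mkAut_of]; simp [tbF, h1]
  | C i =>
    have h0 : 2 * i + 3 < m := by simpa [okG, Nat.blt] using hp
    have hn1 : ¬ (n = 2 * (s + i) + 1) := by omega
    have hn2 : ¬ (n = 2 * (s + i + 1)) := by omega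
    have hn3 : ¬ (n = 2 * (s + i + 1) + 1) := by omega
    cases c
    · simp only [evL, cond_false, Gen.ev, P]
      rw [inv_apply_of_mkAut]; simp only [pG, hn1, hn2, hn3, if_false]
    · simp only [evL, cond_true, Gen.ev, P]
      rw [mkAut_of]; simp only [pF, hn1, hn2, hn3, if_false]

theorem getD_imgs (m : ℕ) (f : ℕ → List ℕ) (i : ℕ) (hi : i < m) :
    ((List.range m).map f).getD i [] = f i := by
  simp [List.getD, hi]

theorem wfW_iff (m : ℕ) (w : List ℕ) : wfW m w = true ↔ ∀ x ∈ w, x < 2 * m := by
  unfold wfW
  rw [List.all_eq_true]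
  constructor
  · intro h x hx
    exact Nat.le_of_ble_eq_true (h x hx)
  · intro h x hx
    exact Nat.ble_eq_true_of_le (h x hx)

theorem wfW_imgG (m : ℕ) (p : Gen × Bool) (hp : okG m p = true) (n : ℕ) (hn : n < m) :
    wfW m (imgG p n) = true := by
  obtain ⟨q, c⟩ := p
  rw [wfW_iff]
  intro x hx
  cases q with
  | A i =>
    have h0 : 2 * i + 1 < m := by simpa [okG, Nat.blt] using hp
    unfold imgG at hx
    cases h1 : Nat.beq n (2 * i + 1) <;> cases c <;> simp [h1] at hx <;> omega
  | B i =>
    have h0 : 2 * i + 1 < m := by simpa [okG, Nat.blt] using hp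
    unfold imgG at hx
    cases h1 : Nat.beq n (2 * i) <;> cases c <;> simp [h1] at hx <;> omega
  | C i =>
    have h0 : 2 * i + 3 < m := by simpa [okG, Nat.blt] using hp
    unfold imgG at hx
    cases h1 : Nat.beq n (2 * i + 1) <;> cases h2 : Nat.beq n (2 * i + 2) <;>
      cases h3 : Nat.beq n (2 * i + 3) <;> cases c <;> simp [h1, h2, h3] at hx <;> omega

theorem wf_imgs (m : ℕ) (p : Gen × Bool) (hp : okG m p = true) : wf m (imgs m p) = true := by
  unfold wf imgs
  rw [Bool.and_eq_true, List.all_eq_true]
  refine ⟨by simp, ?_⟩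
  intro w hw
  rw [List.mem_map] at hw
  obtain ⟨n, hn, rfl⟩ := hw
  exact wfW_imgG m p hp n (List.mem_range.1 hn)

theorem implements_evL (s m : ℕ) (p : Gen × Bool) :
    Implements (eS s) (eS s) m ((evL s p : MulAut F) : F →* F) (imgs m p) := by
  intro n hn
  rw [imgs, getD_imgs m _ n hn]
  exact evL_eS s p n

theorem wfW_push (m : ℕ) (st : List ℕ) (x : ℕ) (h : ∀ y ∈ st, y < 2 * m) (hx : x < 2 * m) :
    ∀ y ∈ push st x, y < 2 * m := by
  intro y hy
  cases st with
  | nil => simp [push] at hy; omega
  | cons z t =>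
    unfold push at hy
    cases hb : Nat.beq z (invL x)
    · simp only [hb, cond_false, List.mem_cons] at hy
      rcases hy with rfl | rfl | hy
      · exact hx
      · exact h _ (by simp)
      · exact h _ (by simp [hy])
    · simp only [hb, cond_true] at hy
      exact h _ (by simp [hy])

theorem wfW_pushW (m : ℕ) (w : List ℕ) (hw : ∀ y ∈ w, y < 2 * m) : ∀ st : List ℕ,
    (∀ y ∈ st, y < 2 * m) → ∀ y ∈ pushW st w, y < 2 * m := by
  induction w with
  | nil => intro st h; simpa [pushW] using h
  | cons x w ih =>
    intro st h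
    exact ih (fun y hy => hw y (by simp [hy])) _ (wfW_push m st x h (hw x (by simp)))

theorem invL_lt (m x : ℕ) (h : x < 2 * m) : invL x < 2 * m := by
  rcases Nat.even_or_odd' x with ⟨i, hi | hi⟩
  · subst hi; rw [invL_even]; omega
  · subst hi; rw [invL_odd]; omega

theorem wfW_imgL (m : ℕ) (im : List (List ℕ)) (him : ∀ w ∈ im, ∀ y ∈ w, y < 2 * m) (x : ℕ) :
    ∀ y ∈ imgL im x, y < 2 * m := by
  have key : ∀ i, ∀ y ∈ im.getD i [], y < 2 * m := by
    intro i y hy
    by_cases hi : i < im.length
    · have : im.getD i [] = im[i] := by simp [List.getD, hi]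
      rw [this] at hy
      exact him _ (List.getElem_mem hi) y hy
    · have : im.getD i [] = [] := by
        simp [List.getD, List.getElem?_eq_none (Nat.le_of_not_lt hi)]
      rw [this] at hy
      simp at hy
  intro y hy
  unfold imgL at hy
  cases hb : Nat.beq (x % 2) 0
  · simp only [hb, cond_false, invW, List.mem_reverse, List.mem_map] at hy
    obtain ⟨z, hz, rfl⟩ := hy
    exact invL_lt m z (key _ z hz)
  · simp only [hb, cond_true] at hy
    exact key _ y hy

theorem wfW_pushImg (m : ℕ) (im : List (List ℕ)) (him : ∀ w ∈ im, ∀ y ∈ w, y < 2 * m)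
    (w : List ℕ) : ∀ st : List ℕ,
    (∀ y ∈ st, y < 2 * m) → ∀ y ∈ pushImg im st w, y < 2 * m := by
  induction w with
  | nil => intro st h; simpa [pushImg] using h
  | cons x w ih =>
    intro st h
    exact ih _ (wfW_pushW m _ (wfW_imgL m im him x) _ h)

theorem wf_comp (m : ℕ) (f g : List (List ℕ)) (hf : wf m f = true) (hg : wf m g = true) :
    wf m (comp f g) = true := by
  unfold wf at hf hg ⊢
  rw [Bool.and_eq_true, List.all_eq_true] at hf hg ⊢
  have hf2 : ∀ w ∈ f, ∀ y ∈ w, y < 2 * m := fun w hw => (wfW_iff m w).1 (hf.2 w hw)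
  refine ⟨by simpa [comp] using hg.1, ?_⟩
  intro w hw
  rw [comp, List.mem_map] at hw
  obtain ⟨v, _, rfl⟩ := hw
  rw [wfW_iff]
  intro y hy
  rw [appl, List.mem_reverse] at hy
  exact wfW_pushImg m f hf2 v [] (by simp) y hy

theorem wf_imgWord (m : ℕ) (w : List (Gen × Bool)) (hw : w.all (okG m) = true) :
    wf m (imgWord m w) = true := by
  induction w with
  | nil =>
    unfold wf imgWord
    rw [Bool.and_eq_true, List.all_eq_true]
    refine ⟨by simp, ?_⟩
    intro v hv
    rw [List.mem_map] at hv
    obtain ⟨n, hn, rfl⟩ := hv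
    rw [wfW_iff]
    have := List.mem_range.1 hn
    intro x hx
    simp at hx
    omega
  | cons p w ih =>
    rw [List.all_cons, Bool.and_eq_true] at hw
    exact wf_comp m _ _ (wf_imgs m p hw.1) (ih hw.2)

theorem implements_evWord (s m : ℕ) (w : List (Gen × Bool)) (hw : w.all (okG m) = true) :
    Implements (eS s) (eS s) m ((evWord s w : MulAut F) : F →* F) (imgWord m w) := by
  induction w with
  | nil =>
    intro n hn
    rw [imgWord, getD_imgs m _ n hn]
    simp [evalL_even]
  | cons p w ih =>
    rw [List.all_cons, Bool.and_eq_true] at hw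
    have h1 := (implements_evL s m p).comp (ih hw.2) (wf_imgWord m w hw.2)
    intro n hn
    have h2 := h1 n hn
    rw [imgWord, ← h2]
    rfl

theorem evWord_outside (s m : ℕ) (w : List (Gen × Bool)) (hw : w.all (okG m) = true) (n : ℕ)
    (hn : n < 2 * s ∨ 2 * s + m ≤ n) : evWord s w (FreeGroup.of n) = FreeGroup.of n := by
  induction w with
  | nil => simp
  | cons p w ih =>
    rw [List.all_cons, Bool.and_eq_true] at hw
    rw [evWord_cons, MulAut.mul_apply, ih hw.2, evL_outside s m p hw.1 n hn]

/-- Two automorphisms of `F` that agree on the letters are equal. -/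
theorem aut_ext_letters {φ ψ : MulAut F} (h : ∀ n, φ (FreeGroup.of n) = ψ (FreeGroup.of n)) : φ = ψ := by
  have h1 : (φ : F →* F) = (ψ : F →* F) := by
    ext n
    simpa using h n
  ext x
  exact DFunLike.congr_fun h1 x

/-- The checker is correct: a checked identity holds for every shift `s`. -/
theorem evWord_eq (m : ℕ) (w1 w2 : List (Gen × Bool)) (h : chk m w1 w2 = true) (s : ℕ) :
    evWord s w1 = evWord s w2 := by
  unfold chk at h
  rw [Bool.and_eq_true, Bool.and_eq_true, decide_eq_true_eq] at h
  obtain ⟨⟨h1, h2⟩, h3⟩ := h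
  apply aut_ext_letters
  intro n
  by_cases hn : n < 2 * s ∨ 2 * s + m ≤ n
  · rw [evWord_outside s m w1 h1 n hn, evWord_outside s m w2 h2 n hn]
  · obtain ⟨k, rfl⟩ : ∃ k, n = 2 * s + k := ⟨n - 2 * s, by omega⟩
    have := Implements.agree (implements_evWord s m w1 h1) (implements_evWord s m w2 h2) h3 k
      (by omega)
    exact this

/-- The value of a word of letters of the block at shift `s`: letter `2k` is the generator
`of (2s+k)`, letter `2k+1` its inverse. -/
def wordS (s : ℕ) (w : List ℕ) : F := evalW (eS s) w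

/-- The image of a word under a word of automorphisms, checked by computation. -/
theorem evWord_apply (m : ℕ) (w : List (Gen × Bool)) (u v : List ℕ)
    (h : (w.all (okG m) && wfW m u && decide (appl (imgWord m w) u = v)) = true) (s : ℕ) :
    evWord s w (wordS s u) = wordS s v := by
  rw [Bool.and_eq_true, Bool.and_eq_true, decide_eq_true_eq] at h
  obtain ⟨⟨h1, h2⟩, h3⟩ := h
  have := (implements_evWord s m w h1).appl u h2
  rw [h3] at this
  exact this

/-- The inverse word. -/
def invWd (w : List (Gen × Bool)) : List (Gen × Bool) := (w.map (fun p => (p.1, !p.2))).reverse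

theorem evL_not (s : ℕ) (p : Gen × Bool) : evL s (p.1, !p.2) = (evL s p)⁻¹ := by
  obtain ⟨q, c⟩ := p
  cases c <;> simp [evL]

theorem evWord_invWd (s : ℕ) (w : List (Gen × Bool)) : evWord s (invWd w) = (evWord s w)⁻¹ := by
  induction w with
  | nil => simp [invWd]
  | cons p w ih =>
    have : invWd (p :: w) = invWd w ++ [(p.1, !p.2)] := by simp [invWd]
    rw [this, evWord_append, ih, evWord_cons, evWord_nil, mul_one, evL_not, evWord_cons, mul_inv_rev]

theorem evL_mem_M (s h : ℕ) (p : Gen × Bool) (hp : okG (2 * h) p = true) : evL s p ∈ M s h := by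
  obtain ⟨q, c⟩ := p
  have key : q.ev s ∈ M s h := by
    cases q with
    | A i =>
      have h0 : 2 * i + 1 < 2 * h := by simpa [okG, Nat.blt] using hp
      exact Subgroup.subset_closure (Or.inl ⟨s + i, by omega, by omega, Or.inl rfl⟩)
    | B i =>
      have h0 : 2 * i + 1 < 2 * h := by simpa [okG, Nat.blt] using hp
      exact Subgroup.subset_closure (Or.inl ⟨s + i, by omega, by omega, Or.inr rfl⟩)
    | C i =>
      have h0 : 2 * i + 3 < 2 * h := by simpa [okG, Nat.blt] using hp
      exact Subgroup.subset_closure (Or.inr ⟨s + i, by omega, by omega, rfl⟩)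
  cases c
  · exact (M s h).inv_mem key
  · exact key

/-- A word in the generators of the handles `s, ..., s+h-1` is in `M s h`. -/
theorem evWord_mem_M (s h : ℕ) (w : List (Gen × Bool)) (hw : w.all (okG (2 * h)) = true) :
    evWord s w ∈ M s h := by
  induction w with
  | nil => exact (M s h).one_mem
  | cons p w ih =>
    rw [List.all_cons, Bool.and_eq_true] at hw
    exact (M s h).mul_mem (evL_mem_M s h p hw.1) (ih hw.2)

theorem Ta_eq (s i : ℕ) : Ta (s + i) = evWord s [(Gen.A i, true)] := by simp [evL, Gen.ev]
theorem Tb_eq (s i : ℕ) : Tb (s + i) = evWord s [(Gen.B i, true)] := by simp [evL, Gen.ev]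
theorem P_eq (s i : ℕ) : P (s + i) = evWord s [(Gen.C i, true)] := by simp [evL, Gen.ev]

end Pool.Agent.Torelli
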