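import Pool.Agent.Torelli.Elts
import Pool.Agent.Torelli.Basic
import Pool.Agent.Torelli.ReflAut

/-!
# Torelli / Words : the derived elements as words, and their letter formulas
-/

set_option autoImplicit false
set_option linter.unusedSimpArgs false

namespace Pool.Agent.Torelli

open Pool.Torelli Pool.Torelli.Refl Gen

/-! ## the letters of the block at handle `s` -/

theorem lt0 (s : ℕ) : evalL (eS s) 0 = a s := eL_even s 0 0 rfl
theorem lt1 (s : ℕ) : evalL (eS s) 1 = (a s)⁻¹ := eL_odd s 0 1 rfl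
theorem lt2 (s : ℕ) : evalL (eS s) 2 = b s := eL_even s 1 2 rfl
theorem lt3 (s : ℕ) : evalL (eS s) 3 = (b s)⁻¹ := eL_odd s 1 3 rfl
theorem lt4 (s : ℕ) : evalL (eS s) 4 = a (s + 1) := eL_even s 2 4 rfl
theorem lt5 (s : ℕ) : evalL (eS s) 5 = (a (s + 1))⁻¹ := eL_odd s 2 5 rfl
theorem lt6 (s : ℕ) : evalL (eS s) 6 = b (s + 1) := eL_even s 3 6 rfl
theorem lt7 (s : ℕ) : evalL (eS s) 7 = (b (s + 1))⁻¹ := eL_odd s 3 7 rfl
theorem lt8 (s : ℕ) : evalL (eS s) 8 = a (s + 2) := eL_even s 4 8 rfl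
theorem lt9 (s : ℕ) : evalL (eS s) 9 = (a (s + 2))⁻¹ := eL_odd s 4 9 rfl
theorem lt10 (s : ℕ) : evalL (eS s) 10 = b (s + 2) := eL_even s 5 10 rfl
theorem lt11 (s : ℕ) : evalL (eS s) 11 = (b (s + 2))⁻¹ := eL_odd s 5 11 rfl
theorem lt12 (s : ℕ) : evalL (eS s) 12 = a (s + 3) := eL_even s 6 12 rfl
theorem lt13 (s : ℕ) : evalL (eS s) 13 = (a (s + 3))⁻¹ := eL_odd s 6 13 rfl
theorem lt14 (s : ℕ) : evalL (eS s) 14 = b (s + 3) := eL_even s 7 14 rfl
theorem lt15 (s : ℕ) : evalL (eS s) 15 = (b (s + 3))⁻¹ := eL_odd s 7 15 rfl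

theorem wordS_nil (s : ℕ) : wordS s [] = 1 := rfl
theorem wordS_cons (s x : ℕ) (w : List ℕ) : wordS s (x :: w) = evalL (eS s) x * wordS s w := rfl

/-- the letter values as a rewriting list for words in at most four handles -/
theorem wordS_cons_lt (s : ℕ) (w : List ℕ) :
    wordS s (0 :: w) = a s * wordS s w ∧ wordS s (1 :: w) = (a s)⁻¹ * wordS s w ∧
    wordS s (2 :: w) = b s * wordS s w ∧ wordS s (3 :: w) = (b s)⁻¹ * wordS s w := by
  refine ⟨?_, ?_, ?_, ?_⟩ <;> simp only [wordS_cons, lt0, lt1, lt2, lt3]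

/-! ## words -/

/-- word of `w` -/
def wW : List (Gen × Bool) := [(A 0, true), (B 0, false)]
/-- word of `iota` -/
def iotaW : List (Gen × Bool) := wW ++ wW ++ wW
/-- word of `TD` -/
def TDW : List (Gen × Bool) := invWd iotaW ++ invWd iotaW
/-- word of `S` -/
def SW : List (Gen × Bool) :=
  [(B 0, true), (B 1, true), (C 0, true), (B 0, false), (A 0, true), (A 0, true), (B 1, false),
   (C 0, true), (A 1, true), (A 1, true), (B 1, false), (B 0, false), (C 0, true)]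
/-- word of `DX` -/
def DXW : List (Gen × Bool) := invWd iotaW ++ [(C 0, true)] ++ iotaW ++ [(C 0, true)]
/-- word of `BP` -/
def BPW : List (Gen × Bool) := DXW ++ invWd TDW
/-- word of `gKA` -/
def gKAW : List (Gen × Bool) :=
  [(B 0, true), (C 0, false), (A 0, false), (B 1, true), (A 1, false), (A 0, true), (B 0, false),
   (C 0, true), (A 1, true), (B 1, false)]
/-- word of `KA` -/
def KAW : List (Gen × Bool) := gKAW ++ invWd BPW ++ invWd gKAW
/-- word of `KB` -/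
def KBW : List (Gen × Bool) := wW ++ KAW ++ invWd wW

theorem w_eq (s : ℕ) : w s = evWord s wW := by
  simp [wW, w, evL, Gen.ev]
theorem iota_eq (s : ℕ) : iota s = evWord s iotaW := by
  rw [iotaW, evWord_append, evWord_append, ← w_eq]; rfl
theorem TD_eq (s : ℕ) : TD s = evWord s TDW := by
  rw [TDW, evWord_append, evWord_invWd, ← iota_eq]; rfl
theorem S_eq (s : ℕ) : S s = evWord s SW := by
  simp [SW, S, evL, Gen.ev, mul_assoc]
theorem DX_eq (s : ℕ) : DX s = evWord s DXW := by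
  rw [DXW, evWord_append, evWord_append, evWord_append, evWord_invWd, ← iota_eq]
  simp [DX, evL, Gen.ev]
theorem BP_eq (s : ℕ) : BP s = evWord s BPW := by
  rw [BPW, evWord_append, evWord_invWd, ← DX_eq, ← TD_eq]; rfl
theorem gKA_eq (s : ℕ) : gKA s = evWord s gKAW := by
  simp [gKAW, gKA, evL, Gen.ev, mul_assoc]
theorem KA_eq (s : ℕ) : KA s = evWord s KAW := by
  rw [KAW, evWord_append, evWord_append, evWord_invWd, evWord_invWd, ← gKA_eq, ← BP_eq]; rfl
theorem KB_eq (s : ℕ) : KB s = evWord s KBW := by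
  rw [KBW, evWord_append, evWord_append, evWord_invWd, ← w_eq, ← KA_eq]; rfl

/-! ## letter formulas -/

theorem w_a0 (i : ℕ) : w i (a i) = (b i)⁻¹ := by
  have h := evWord_apply 2 wW [0] [3] (by decide +kernel) i
  simp only [wordS_cons, wordS_nil, mul_one, lt0, lt1, lt2, lt3, lt4, lt5, lt6, lt7] at h
  rw [w_eq, h]
  try simp only [H, d]
  try group
theorem w_b0 (i : ℕ) : w i (b i) = b i * a i := by
  have h := evWord_apply 2 wW [2] [2, 0] (by decide +kernel) i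
  simp only [wordS_cons, wordS_nil, mul_one, lt0, lt1, lt2, lt3, lt4, lt5, lt6, lt7] at h
  rw [w_eq, h]
  try simp only [H, d]
  try group
theorem w_out (i n : ℕ) (h : n < 2 * i ∨ 2 * i + 2 ≤ n) : w i (FreeGroup.of n) = FreeGroup.of n := by
  rw [w_eq]; exact evWord_outside i 2 wW (by decide +kernel) n h
theorem w_mem (i h : ℕ) (hh : 1 ≤ h) : w i ∈ M i h := by
  rw [w_eq]
  exact M_mono le_rfl (by omega) (evWord_mem_M i 1 wW (by decide +kernel))

theorem iota_a0 (i : ℕ) : iota i (a i) = d i := by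
  have h := evWord_apply 2 iotaW [0] [2, 1, 3] (by decide +kernel) i
  simp only [wordS_cons, wordS_nil, mul_one, lt0, lt1, lt2, lt3, lt4, lt5, lt6, lt7] at h
  rw [iota_eq, h]
  try simp only [H, d]
  try group
theorem iota_b0 (i : ℕ) : iota i (b i) = b i * a i * (b i)⁻¹ * (a i)⁻¹ * (b i)⁻¹ := by
  have h := evWord_apply 2 iotaW [2] [2, 0, 3, 1, 3] (by decide +kernel) i
  simp only [wordS_cons, wordS_nil, mul_one, lt0, lt1, lt2, lt3, lt4, lt5, lt6, lt7] at h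
  rw [iota_eq, h]
  try simp only [H, d]
  try group
theorem iota_out (i n : ℕ) (h : n < 2 * i ∨ 2 * i + 2 ≤ n) : iota i (FreeGroup.of n) = FreeGroup.of n := by
  rw [iota_eq]; exact evWord_outside i 2 iotaW (by decide +kernel) n h
theorem iota_mem (i h : ℕ) (hh : 1 ≤ h) : iota i ∈ M i h := by
  rw [iota_eq]
  exact M_mono le_rfl (by omega) (evWord_mem_M i 1 iotaW (by decide +kernel))

theorem TD_a0 (i : ℕ) : TD i (a i) = H i * a i * (H i)⁻¹ := by
  have h := evWord_apply 2 TDW [0] [0, 2, 1, 3, 0, 2, 0, 3, 1] (by decide +kernel) i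
  simp only [wordS_cons, wordS_nil, mul_one, lt0, lt1, lt2, lt3, lt4, lt5, lt6, lt7] at h
  rw [TD_eq, h]
  try simp only [H, d]
  try group
theorem TD_b0 (i : ℕ) : TD i (b i) = H i * b i * (H i)⁻¹ := by
  have h := evWord_apply 2 TDW [2] [0, 2, 1, 2, 0, 3, 1] (by decide +kernel) i
  simp only [wordS_cons, wordS_nil, mul_one, lt0, lt1, lt2, lt3, lt4, lt5, lt6, lt7] at h
  rw [TD_eq, h]
  try simp only [H, d]
  try group
theorem TD_out (i n : ℕ) (h : n < 2 * i ∨ 2 * i + 2 ≤ n) : TD i (FreeGroup.of n) = FreeGroup.of n := by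
  rw [TD_eq]; exact evWord_outside i 2 TDW (by decide +kernel) n h
theorem TD_mem (i h : ℕ) (hh : 1 ≤ h) : TD i ∈ M i h := by
  rw [TD_eq]
  exact M_mono le_rfl (by omega) (evWord_mem_M i 1 TDW (by decide +kernel))

theorem S_a0 (i : ℕ) : S i (a i) = a (i + 1) := by
  have h := evWord_apply 4 SW [0] [4] (by decide +kernel) i
  simp only [wordS_cons, wordS_nil, mul_one, lt0, lt1, lt2, lt3, lt4, lt5, lt6, lt7] at h
  rw [S_eq, h]
  try simp only [H, d]
  try group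
theorem S_b0 (i : ℕ) : S i (b i) = b (i + 1) := by
  have h := evWord_apply 4 SW [2] [6] (by decide +kernel) i
  simp only [wordS_cons, wordS_nil, mul_one, lt0, lt1, lt2, lt3, lt4, lt5, lt6, lt7] at h
  rw [S_eq, h]
  try simp only [H, d]
  try group
theorem S_a1 (i : ℕ) : S i (a (i + 1)) = (H (i + 1))⁻¹ * a i * H (i + 1) := by
  have h := evWord_apply 4 SW [4] [6, 4, 7, 5, 0, 4, 6, 5, 7] (by decide +kernel) i
  simp only [wordS_cons, wordS_nil, mul_one, lt0, lt1, lt2, lt3, lt4, lt5, lt6, lt7] at h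
  rw [S_eq, h]
  try simp only [H, d]
  try group
theorem S_b1 (i : ℕ) : S i (b (i + 1)) = (H (i + 1))⁻¹ * b i * H (i + 1) := by
  have h := evWord_apply 4 SW [6] [6, 4, 7, 5, 2, 4, 6, 5, 7] (by decide +kernel) i
  simp only [wordS_cons, wordS_nil, mul_one, lt0, lt1, lt2, lt3, lt4, lt5, lt6, lt7] at h
  rw [S_eq, h]
  try simp only [H, d]
  try group
theorem S_out (i n : ℕ) (h : n < 2 * i ∨ 2 * i + 4 ≤ n) : S i (FreeGroup.of n) = FreeGroup.of n := by
  rw [S_eq]; exact evWord_outside i 4 SW (by decide +kernel) n h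
theorem S_mem (i h : ℕ) (hh : 2 ≤ h) : S i ∈ M i h := by
  rw [S_eq]
  exact M_mono le_rfl (by omega) (evWord_mem_M i 2 SW (by decide +kernel))

theorem DX_a0 (i : ℕ) : DX i (a i) = (a (i + 1))⁻¹ * a i * a (i + 1) := by
  have h := evWord_apply 4 DXW [0] [5, 0, 4] (by decide +kernel) i
  simp only [wordS_cons, wordS_nil, mul_one, lt0, lt1, lt2, lt3, lt4, lt5, lt6, lt7] at h
  rw [DX_eq, h]
  try simp only [H, d]
  try group
theorem DX_b0 (i : ℕ) : DX i (b i) = (a (i + 1))⁻¹ * b i * a (i + 1) := by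
  have h := evWord_apply 4 DXW [2] [5, 2, 4] (by decide +kernel) i
  simp only [wordS_cons, wordS_nil, mul_one, lt0, lt1, lt2, lt3, lt4, lt5, lt6, lt7] at h
  rw [DX_eq, h]
  try simp only [H, d]
  try group
theorem DX_a1 (i : ℕ) : DX i (a (i + 1)) = (a (i + 1))⁻¹ * (H i)⁻¹ * a (i + 1) * H i * a (i + 1) := by
  have h := evWord_apply 4 DXW [4] [5, 2, 0, 3, 1, 4, 0, 2, 1, 3, 4] (by decide +kernel) i
  simp only [wordS_cons, wordS_nil, mul_one, lt0, lt1, lt2, lt3, lt4, lt5, lt6, lt7] at h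
  rw [DX_eq, h]
  try simp only [H, d]
  try group
theorem DX_b1 (i : ℕ) : DX i (b (i + 1)) = b (i + 1) * (a (i + 1))⁻¹ * H i * a (i + 1) := by
  have h := evWord_apply 4 DXW [6] [6, 5, 0, 2, 1, 3, 4] (by decide +kernel) i
  simp only [wordS_cons, wordS_nil, mul_one, lt0, lt1, lt2, lt3, lt4, lt5, lt6, lt7] at h
  rw [DX_eq, h]
  try simp only [H, d]
  try group
theorem DX_out (i n : ℕ) (h : n < 2 * i ∨ 2 * i + 4 ≤ n) : DX i (FreeGroup.of n) = FreeGroup.of n := by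
  rw [DX_eq]; exact evWord_outside i 4 DXW (by decide +kernel) n h
theorem DX_mem (i h : ℕ) (hh : 2 ≤ h) : DX i ∈ M i h := by
  rw [DX_eq]
  exact M_mono le_rfl (by omega) (evWord_mem_M i 2 DXW (by decide +kernel))

theorem BP_a0 (i : ℕ) : BP i (a i) = (a (i + 1))⁻¹ * (H i)⁻¹ * a i * H i * a (i + 1) := by
  have h := evWord_apply 4 BPW [0] [5, 2, 0, 3, 0, 2, 1, 3, 4] (by decide +kernel) i
  simp only [wordS_cons, wordS_nil, mul_one, lt0, lt1, lt2, lt3, lt4, lt5, lt6, lt7] at h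
  rw [BP_eq, h]
  try simp only [H, d]
  try group
theorem BP_b0 (i : ℕ) : BP i (b i) = (a (i + 1))⁻¹ * (H i)⁻¹ * b i * H i * a (i + 1) := by
  have h := evWord_apply 4 BPW [2] [5, 2, 0, 3, 1, 2, 0, 2, 1, 3, 4] (by decide +kernel) i
  simp only [wordS_cons, wordS_nil, mul_one, lt0, lt1, lt2, lt3, lt4, lt5, lt6, lt7] at h
  rw [BP_eq, h]
  try simp only [H, d]
  try group
theorem BP_a1 (i : ℕ) : BP i (a (i + 1)) = (a (i + 1))⁻¹ * (H i)⁻¹ * a (i + 1) * H i * a (i + 1) := by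
  have h := evWord_apply 4 BPW [4] [5, 2, 0, 3, 1, 4, 0, 2, 1, 3, 4] (by decide +kernel) i
  simp only [wordS_cons, wordS_nil, mul_one, lt0, lt1, lt2, lt3, lt4, lt5, lt6, lt7] at h
  rw [BP_eq, h]
  try simp only [H, d]
  try group
theorem BP_b1 (i : ℕ) : BP i (b (i + 1)) = b (i + 1) * (a (i + 1))⁻¹ * H i * a (i + 1) := by
  have h := evWord_apply 4 BPW [6] [6, 5, 0, 2, 1, 3, 4] (by decide +kernel) i
  simp only [wordS_cons, wordS_nil, mul_one, lt0, lt1, lt2, lt3, lt4, lt5, lt6, lt7] at h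
  rw [BP_eq, h]
  try simp only [H, d]
  try group
theorem BP_out (i n : ℕ) (h : n < 2 * i ∨ 2 * i + 4 ≤ n) : BP i (FreeGroup.of n) = FreeGroup.of n := by
  rw [BP_eq]; exact evWord_outside i 4 BPW (by decide +kernel) n h
theorem BP_mem (i h : ℕ) (hh : 2 ≤ h) : BP i ∈ M i h := by
  rw [BP_eq]
  exact M_mono le_rfl (by omega) (evWord_mem_M i 2 BPW (by decide +kernel))

theorem KA_a0 (i : ℕ) : KA i (a i) = a i := by
  have h := evWord_apply 4 KAW [0] [0] (by decide +kernel) i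
  simp only [wordS_cons, wordS_nil, mul_one, lt0, lt1, lt2, lt3, lt4, lt5, lt6, lt7] at h
  rw [KA_eq, h]
  try simp only [H, d]
  try group
theorem KA_b0 (i : ℕ) : KA i (b i) = (H (i + 1))⁻¹ * b i := by
  have h := evWord_apply 4 KAW [2] [6, 4, 7, 5, 2] (by decide +kernel) i
  simp only [wordS_cons, wordS_nil, mul_one, lt0, lt1, lt2, lt3, lt4, lt5, lt6, lt7] at h
  rw [KA_eq, h]
  try simp only [H, d]
  try group
theorem KA_a1 (i : ℕ) : KA i (a (i + 1)) = (H (i + 1))⁻¹ * (d i)⁻¹ * a (i + 1) * d i * H (i + 1) := by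
  have h := evWord_apply 4 KAW [4] [6, 4, 7, 5, 2, 0, 3, 4, 2, 1, 3, 4, 6, 5, 7] (by decide +kernel) i
  simp only [wordS_cons, wordS_nil, mul_one, lt0, lt1, lt2, lt3, lt4, lt5, lt6, lt7] at h
  rw [KA_eq, h]
  try simp only [H, d]
  try group
theorem KA_b1 (i : ℕ) : KA i (b (i + 1)) = (H (i + 1))⁻¹ * (d i)⁻¹ * b (i + 1) * d i * H (i + 1) := by
  have h := evWord_apply 4 KAW [6] [6, 4, 7, 5, 2, 0, 3, 6, 2, 1, 3, 4, 6, 5, 7] (by decide +kernel) i
  simp only [wordS_cons, wordS_nil, mul_one, lt0, lt1, lt2, lt3, lt4, lt5, lt6, lt7] at h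
  rw [KA_eq, h]
  try simp only [H, d]
  try group
theorem KA_out (i n : ℕ) (h : n < 2 * i ∨ 2 * i + 4 ≤ n) : KA i (FreeGroup.of n) = FreeGroup.of n := by
  rw [KA_eq]; exact evWord_outside i 4 KAW (by decide +kernel) n h
theorem KA_mem (i h : ℕ) (hh : 2 ≤ h) : KA i ∈ M i h := by
  rw [KA_eq]
  exact M_mono le_rfl (by omega) (evWord_mem_M i 2 KAW (by decide +kernel))

theorem KB_a0 (i : ℕ) : KB i (a i) = (b i)⁻¹ * (H (i + 1))⁻¹ * b i * a i := by
  have h := evWord_apply 4 KBW [0] [3, 6, 4, 7, 5, 2, 0] (by decide +kernel) i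
  simp only [wordS_cons, wordS_nil, mul_one, lt0, lt1, lt2, lt3, lt4, lt5, lt6, lt7] at h
  rw [KB_eq, h]
  try simp only [H, d]
  try group
theorem KB_b0 (i : ℕ) : KB i (b i) = b i := by
  have h := evWord_apply 4 KBW [2] [2] (by decide +kernel) i
  simp only [wordS_cons, wordS_nil, mul_one, lt0, lt1, lt2, lt3, lt4, lt5, lt6, lt7] at h
  rw [KB_eq, h]
  try simp only [H, d]
  try group
theorem KB_a1 (i : ℕ) : KB i (a (i + 1)) = (H (i + 1))⁻¹ * (b i * a i * (b i)⁻¹ * (a i)⁻¹ * (b i)⁻¹) * a (i + 1) * (b i * a i * (b i)⁻¹ * (a i)⁻¹ * (b i)⁻¹)⁻¹ * H (i + 1) := by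
  have h := evWord_apply 4 KBW [4] [6, 4, 7, 5, 2, 0, 3, 1, 3, 4, 2, 0, 2, 1, 3, 4, 6, 5, 7] (by decide +kernel) i
  simp only [wordS_cons, wordS_nil, mul_one, lt0, lt1, lt2, lt3, lt4, lt5, lt6, lt7] at h
  rw [KB_eq, h]
  try simp only [H, d]
  try group
theorem KB_b1 (i : ℕ) : KB i (b (i + 1)) = (H (i + 1))⁻¹ * (b i * a i * (b i)⁻¹ * (a i)⁻¹ * (b i)⁻¹) * b (i + 1) * (b i * a i * (b i)⁻¹ * (a i)⁻¹ * (b i)⁻¹)⁻¹ * H (i + 1) := by
  have h := evWord_apply 4 KBW [6] [6, 4, 7, 5, 2, 0, 3, 1, 3, 6, 2, 0, 2, 1, 3, 4, 6, 5, 7] (by decide +kernel) i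
  simp only [wordS_cons, wordS_nil, mul_one, lt0, lt1, lt2, lt3, lt4, lt5, lt6, lt7] at h
  rw [KB_eq, h]
  try simp only [H, d]
  try group
theorem KB_out (i n : ℕ) (h : n < 2 * i ∨ 2 * i + 4 ≤ n) : KB i (FreeGroup.of n) = FreeGroup.of n := by
  rw [KB_eq]; exact evWord_outside i 4 KBW (by decide +kernel) n h
theorem KB_mem (i h : ℕ) (hh : 2 ≤ h) : KB i ∈ M i h := by
  rw [KB_eq]
  exact M_mono le_rfl (by omega) (evWord_mem_M i 2 KBW (by decide +kernel))

end Pool.Agent.Torelli
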