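import Pool.Agent.Torelli.Defs

/-!
# Torelli project: derived automorphisms, as words in the generators `Ta`, `Tb`, `P`
-/

set_option autoImplicit false

namespace Pool.Agent.Torelli

/-- separating twist `T_δ` : `a_i, b_i ↦ k (·) k⁻¹`, `k = H i`  (`= (iota i)⁻²`) -/
def TD (i : ℕ) : MulAut F := (iota i)⁻¹ * (iota i)⁻¹

/-- handle swap : `(a_i, b_i) ↦ (a_{i+1}, b_{i+1})`,
`(a_{i+1}, b_{i+1}) ↦ m⁻¹ (a_i, b_i) m` with `m = H (i+1)` -/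
def S (i : ℕ) : MulAut F :=
  Tb i * Tb (i + 1) * P i * (Tb i)⁻¹ * Ta i * Ta i * (Tb (i + 1))⁻¹ * P i * Ta (i + 1) *
    Ta (i + 1) * (Tb (i + 1))⁻¹ * (Tb i)⁻¹ * P i

/-- handle push : `a_i, b_i ↦ x⁻¹ (·) x`, `x ↦ x⁻¹ k⁻¹ x k x`, `y ↦ y x⁻¹ k x`
with `x = a_{i+1}`, `y = b_{i+1}`, `k = H i` -/
def DX (i : ℕ) : MulAut F := (iota i)⁻¹ * P i * iota i * P i

/-- genus one bounding pair map -/
def BP (i : ℕ) : MulAut F := DX i * (TD i)⁻¹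

/-- the conjugator relating `KA` and `BP` -/
def gKA (i : ℕ) : MulAut F :=
  Tb i * (P i)⁻¹ * (Ta i)⁻¹ * Tb (i + 1) * (Ta (i + 1))⁻¹ * Ta i * (Tb i)⁻¹ * P i * Ta (i + 1) *
    (Tb (i + 1))⁻¹

/-- `kappa_a (H (i+1))` : `b_i ↦ m⁻¹ b_i`, `x, y ↦ (m⁻¹ d⁻¹) (·) (m⁻¹ d⁻¹)⁻¹`
with `m = H (i+1)`, `d = d i`, `x = a_{i+1}`, `y = b_{i+1}` -/
def KA (i : ℕ) : MulAut F := gKA i * (BP i)⁻¹ * (gKA i)⁻¹

/-- `kappa_b (H (i+1))` -/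
def KB (i : ℕ) : MulAut F := w i * KA i * (w i)⁻¹

end Pool.Agent.Torelli
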