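import Pool.Agent.Torelli.Basic
import Pool.Agent.Torelli.Elts

/-!
# Torelli project: interface definitions shared by the parts F, E, PG, B1, G, H, CNT

First handle `s`; `B` = handles `s+1, ..., s+h-1` (`FS (s+1) (h-1)`).
-/

set_option autoImplicit false

namespace Pool.Agent.Torelli

/-! ## Point pushing -/

/-- push letter of `a (s+1+k)` -/
def Qa (s : ℕ) : ℕ → MulAut F
  | 0 => P s
  | k + 1 => S (s + 1 + k) * Qa s k * (S (s + 1 + k))⁻¹

/-- push letter of `b (s+1+k)` -/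
def Qb (s : ℕ) : ℕ → MulAut F
  | 0 => (w (s + 1) * P s * (w (s + 1))⁻¹)⁻¹
  | k + 1 => S (s + 1 + k) * Qb s k * (S (s + 1 + k))⁻¹

/-- push letter of the letter `n` (trivial for `n < 2 (s+1)`) -/
def QL (s n : ℕ) : MulAut F :=
  if n < 2 * (s + 1) then 1
  else if n % 2 = 0 then Qa s (n / 2 - (s + 1)) else Qb s (n / 2 - (s + 1))

/-- point pushing -/
def push (s : ℕ) : F →* MulAut F := FreeGroup.lift (QL s)

/-- `nu s u` : coefficient of `a_s` in `push(u)_* b_s` -/
noncomputable def nu (s : ℕ) (u : F) : ℤ := Multiplicative.toAdd (cl (push s u (b s))) (2 * s)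

/-- `kap s u`, for `cl u = 1` an element of the Torelli group fixing `a_s` -/
noncomputable def kap (s : ℕ) (u : F) : MulAut F := push s u * Ta s ^ (-(nu s u))

/-- the same with `b_s` instead of `a_s` -/
noncomputable def kapb (s : ℕ) (u : F) : MulAut F := w s * kap s u * (w s)⁻¹

/-- `Ma s h = <M (s+1) (h-1), Ta s, P s>` (`P s` only if `h ≥ 2`): the stabiliser of `a_s` -/
def Ma (s h : ℕ) : Subgroup (MulAut F) :=
  Subgroup.closure ((M (s + 1) (h - 1) : Set (MulAut F)) ∪ {Ta s} ∪ {φ | 2 ≤ h ∧ φ = P s})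

/-- `Ka s h` -/
def Ka (s h : ℕ) : Subgroup (MulAut F) :=
  Subgroup.closure {φ | ∃ u ∈ FS (s + 1) (h - 1), cl u = 1 ∧ φ = kap s u}

/-- `Kb s h` -/
def Kb (s h : ℕ) : Subgroup (MulAut F) :=
  Subgroup.closure {φ | ∃ u ∈ FS (s + 1) (h - 1), cl u = 1 ∧ φ = kapb s u}

/-! ## Handle pushing -/

/-- handle push along `a (s+1+k)` -/
def Da (s : ℕ) : ℕ → MulAut F
  | 0 => DX s
  | k + 1 => S (s + 1 + k) * Da s k * (S (s + 1 + k))⁻¹

/-- handle push along `b (s+1+k)` -/
def Db (s : ℕ) : ℕ → MulAut F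
  | 0 => (w (s + 1) * DX s * (w (s + 1))⁻¹)⁻¹
  | k + 1 => S (s + 1 + k) * Db s k * (S (s + 1 + k))⁻¹

/-- `Dp s h = < D(z) (z letter of B), TD s >` -/
def Dp (s h : ℕ) : Subgroup (MulAut F) :=
  Subgroup.closure ({φ | ∃ k, k + 1 < h ∧ (φ = Da s k ∨ φ = Db s k)} ∪ {TD s})

/-! ## Subgroups -/

/-- generated by the simple genus one loops -/
def Delta (s h : ℕ) : Subgroup F := Subgroup.closure {x | ∃ θ ∈ M s h, x = θ (H s)}

/-- normal closure in `M s h` of `TD s` and (if `h ≥ 2`) `BP s` -/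
def JJ (s h : ℕ) : Subgroup (MulAut F) :=
  Subgroup.closure {φ | ∃ θ ∈ M s h, φ = θ * TD s * θ⁻¹ ∨ (2 ≤ h ∧ φ = θ * BP s * θ⁻¹)}

/-- the group `J` of part G -/
noncomputable def JG (s h : ℕ) : Subgroup (MulAut F) :=
  Tor (s + 1) (h - 1) ⊔ Ka s h ⊔ Kb s h ⊔ Dp s h

/-! ## Number of generators -/

/-- the subgroup `K` is generated by `N` elements -/
def GenN {G : Type*} [Group G] (K : Subgroup G) (N : ℕ) : Prop :=
  ∃ f : Fin N → G, Subgroup.closure (Set.range f) = K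

/-- number of generators of the closed Torelli group -/
def ng (h : ℕ) : ℕ := (4 * h ^ 3 - h) / 3

/-- number of generators of the Torelli group with one boundary component -/
def mh (h : ℕ) : ℕ := ng h + 2 * h + 1

end Pool.Agent.Torelli
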