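import Mathlib

/-!
# Torelli project (MP_f42b78_gt): basic definitions

Everything lives in the automorphism group of the free group on the natural numbers.
The letters `2*i` and `2*i+1` are the two standard generators of handle `i` (0-based handles).
-/

set_option autoImplicit false

namespace Pool.Agent.Torelli

/-- The free group in which everything takes place. -/
abbrev F := FreeGroup ℕ

/-- first generator of handle `i` -/
def a (i : ℕ) : F := FreeGroup.of (2 * i)

/-- second generator of handle `i` -/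
def b (i : ℕ) : F := FreeGroup.of (2 * i + 1)

/-- the boundary word `[a_i, b_i]` of handle `i` -/
def H (i : ℕ) : F := a i * b i * (a i)⁻¹ * (b i)⁻¹

/-- `zeta s h = H s * H (s+1) * ... * H (s+h-1)` -/
def zeta (s h : ℕ) : F := ((List.range h).map fun j => H (s + j)).prod

/-- `d_i = b_i a_i⁻¹ b_i⁻¹` -/
def d (i : ℕ) : F := b i * (a i)⁻¹ * (b i)⁻¹

/-- build an automorphism from two maps on letters -/
def mkAut (f g : ℕ → F) (h1 : ∀ n, FreeGroup.lift f (g n) = FreeGroup.of n)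
    (h2 : ∀ n, FreeGroup.lift g (f n) = FreeGroup.of n) : MulAut F :=
  MonoidHom.toMulEquiv (FreeGroup.lift f) (FreeGroup.lift g)
    (by ext n; simpa using h2 n) (by ext n; simpa using h1 n)

@[simp] theorem mkAut_of (f g : ℕ → F) (h1 h2) (n : ℕ) :
    mkAut f g h1 h2 (FreeGroup.of n) = f n := by
  simp [mkAut]

@[simp] theorem mkAut_symm_of (f g : ℕ → F) (h1 h2) (n : ℕ) :
    (mkAut f g h1 h2).symm (FreeGroup.of n) = g n := by
  simp [mkAut]

/-- images of the letters under `Ta i`: `b_i ↦ b_i a_i` -/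
def taF (i n : ℕ) : F := if n = 2 * i + 1 then b i * a i else FreeGroup.of n
def taG (i n : ℕ) : F := if n = 2 * i + 1 then b i * (a i)⁻¹ else FreeGroup.of n
/-- images of the letters under `Tb i`: `a_i ↦ a_i b_i` -/
def tbF (i n : ℕ) : F := if n = 2 * i then a i * b i else FreeGroup.of n
def tbG (i n : ℕ) : F := if n = 2 * i then a i * (b i)⁻¹ else FreeGroup.of n
/-- images of the letters under `P i`, with `x = a_{i+1}`, `y = b_{i+1}`, `d = d_i`:
`b_i ↦ x⁻¹ b_i`, `x ↦ x⁻¹ d⁻¹ x d x`, `y ↦ y x⁻¹ d x`. -/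
def pF (i n : ℕ) : F :=
  if n = 2 * i + 1 then (a (i + 1))⁻¹ * b i
  else if n = 2 * (i + 1) then (a (i + 1))⁻¹ * (d i)⁻¹ * a (i + 1) * d i * a (i + 1)
  else if n = 2 * (i + 1) + 1 then b (i + 1) * (a (i + 1))⁻¹ * d i * a (i + 1)
  else FreeGroup.of n
def pG (i n : ℕ) : F :=
  if n = 2 * i + 1 then d i * a (i + 1) * (d i)⁻¹ * b i
  else if n = 2 * (i + 1) then d i * a (i + 1) * (d i)⁻¹
  else if n = 2 * (i + 1) + 1 then b (i + 1) * (d i)⁻¹
  else FreeGroup.of n

section lifts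
variable (i : ℕ)

theorem lift_a (f : ℕ → F) (j : ℕ) : FreeGroup.lift f (a j) = f (2 * j) := by simp [a]
theorem lift_b (f : ℕ → F) (j : ℕ) : FreeGroup.lift f (b j) = f (2 * j + 1) := by simp [b]

theorem taF_a (j : ℕ) : taF i (2 * j) = a j := by
  have : ¬ (2 * j = 2 * i + 1) := by omega
  simp [taF, this, a]
theorem taF_b : taF i (2 * i + 1) = b i * a i := by simp [taF]
theorem taG_a (j : ℕ) : taG i (2 * j) = a j := by
  have : ¬ (2 * j = 2 * i + 1) := by omega
  simp [taG, this, a]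
theorem taG_b : taG i (2 * i + 1) = b i * (a i)⁻¹ := by simp [taG]
theorem tbF_b (j : ℕ) : tbF i (2 * j + 1) = b j := by
  have : ¬ (2 * j + 1 = 2 * i) := by omega
  simp [tbF, this, b]
theorem tbF_a : tbF i (2 * i) = a i * b i := by simp [tbF]
theorem tbG_b (j : ℕ) : tbG i (2 * j + 1) = b j := by
  have : ¬ (2 * j + 1 = 2 * i) := by omega
  simp [tbG, this, b]
theorem tbG_a : tbG i (2 * i) = a i * (b i)⁻¹ := by simp [tbG]

theorem pF_a : pF i (2 * i) = a i := by
  have h1 : ¬ (2 * i = 2 * i + 1) := by omega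
  have h2 : ¬ (2 * i = 2 * (i + 1)) := by omega
  have h3 : ¬ (2 * i = 2 * (i + 1) + 1) := by omega
  simp only [pF, h1, h2, h3, if_false, a]
theorem pF_b : pF i (2 * i + 1) = (a (i + 1))⁻¹ * b i := by simp [pF]
theorem pF_x : pF i (2 * (i + 1)) =
    (a (i + 1))⁻¹ * (d i)⁻¹ * a (i + 1) * d i * a (i + 1) := by
  have h1 : ¬ (2 * (i + 1) = 2 * i + 1) := by omega
  simp only [pF, h1, if_false, if_true]
theorem pF_y : pF i (2 * (i + 1) + 1) = b (i + 1) * (a (i + 1))⁻¹ * d i * a (i + 1) := by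
  have h1 : ¬ (2 * (i + 1) + 1 = 2 * i + 1) := by omega
  have h2 : ¬ (2 * (i + 1) + 1 = 2 * (i + 1)) := by omega
  simp only [pF, h1, h2, if_false, if_true]
theorem pG_a : pG i (2 * i) = a i := by
  have h1 : ¬ (2 * i = 2 * i + 1) := by omega
  have h2 : ¬ (2 * i = 2 * (i + 1)) := by omega
  have h3 : ¬ (2 * i = 2 * (i + 1) + 1) := by omega
  simp only [pG, h1, h2, h3, if_false, a]
theorem pG_b : pG i (2 * i + 1) = d i * a (i + 1) * (d i)⁻¹ * b i := by simp [pG]
theorem pG_x : pG i (2 * (i + 1)) = d i * a (i + 1) * (d i)⁻¹ := by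
  have h1 : ¬ (2 * (i + 1) = 2 * i + 1) := by omega
  simp only [pG, h1, if_false, if_true]
theorem pG_y : pG i (2 * (i + 1) + 1) = b (i + 1) * (d i)⁻¹ := by
  have h1 : ¬ (2 * (i + 1) + 1 = 2 * i + 1) := by omega
  have h2 : ¬ (2 * (i + 1) + 1 = 2 * (i + 1)) := by omega
  simp only [pG, h1, h2, if_false, if_true]

theorem ta_fg (n : ℕ) : FreeGroup.lift (taF i) (taG i n) = FreeGroup.of n := by
  by_cases h : n = 2 * i + 1
  · subst h; rw [taG_b]; simp only [map_mul, map_inv, lift_a, lift_b, taF_a, taF_b]; simp [b]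
  · simp [taG, taF, h]
theorem ta_gf (n : ℕ) : FreeGroup.lift (taG i) (taF i n) = FreeGroup.of n := by
  by_cases h : n = 2 * i + 1
  · subst h; rw [taF_b]; simp only [map_mul, lift_a, lift_b, taG_a, taG_b]; simp [b]
  · simp [taG, taF, h]
theorem tb_fg (n : ℕ) : FreeGroup.lift (tbF i) (tbG i n) = FreeGroup.of n := by
  by_cases h : n = 2 * i
  · subst h; rw [tbG_a]; simp only [map_mul, map_inv, lift_a, lift_b, tbF_a, tbF_b]; simp [a]
  · simp [tbG, tbF, h]
theorem tb_gf (n : ℕ) : FreeGroup.lift (tbG i) (tbF i n) = FreeGroup.of n := by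
  by_cases h : n = 2 * i
  · subst h; rw [tbF_a]; simp only [map_mul, lift_a, lift_b, tbG_a, tbG_b]; simp [a]
  · simp [tbG, tbF, h]
theorem p_fg (n : ℕ) : FreeGroup.lift (pF i) (pG i n) = FreeGroup.of n := by
  by_cases h1 : n = 2 * i + 1
  · subst h1; rw [pG_b]; simp only [map_mul, map_inv, lift_a, lift_b, pF_a, pF_b, pF_x, d]
    simp only [b]; group
  by_cases h2 : n = 2 * (i + 1)
  · subst h2; rw [pG_x]; simp only [map_mul, map_inv, lift_a, lift_b, pF_a, pF_b, pF_x, d]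
    simp only [a]; group
  by_cases h3 : n = 2 * (i + 1) + 1
  · subst h3; rw [pG_y]; simp only [map_mul, map_inv, lift_a, lift_b, pF_a, pF_b, pF_x, pF_y, d]
    simp only [b]; group
  simp [pG, pF, h1, h2, h3]
theorem p_gf (n : ℕ) : FreeGroup.lift (pG i) (pF i n) = FreeGroup.of n := by
  by_cases h1 : n = 2 * i + 1
  · subst h1; rw [pF_b]; simp only [map_mul, map_inv, lift_a, lift_b, pG_a, pG_b, pG_x, d]
    simp only [b]; group
  by_cases h2 : n = 2 * (i + 1)
  · subst h2; rw [pF_x]; simp only [map_mul, map_inv, lift_a, lift_b, pG_a, pG_b, pG_x, d]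
    simp only [a]; group
  by_cases h3 : n = 2 * (i + 1) + 1
  · subst h3; rw [pF_y]; simp only [map_mul, map_inv, lift_a, lift_b, pG_a, pG_b, pG_x, pG_y, d]
    simp only [b]; group
  simp [pG, pF, h1, h2, h3]
end lifts

/-- `Ta i : b_i ↦ b_i a_i`, all other letters fixed. -/
def Ta (i : ℕ) : MulAut F := mkAut (taF i) (taG i) (ta_fg i) (ta_gf i)
/-- `Tb i : a_i ↦ a_i b_i`, all other letters fixed. -/
def Tb (i : ℕ) : MulAut F := mkAut (tbF i) (tbG i) (tb_fg i) (tb_gf i)
/-- `P i : b_i ↦ x⁻¹ b_i, x ↦ x⁻¹ d⁻¹ x d x, y ↦ y x⁻¹ d x` (`x = a_{i+1}`, `y = b_{i+1}`,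
`d = b_i a_i⁻¹ b_i⁻¹`), all other letters fixed. -/
def P (i : ℕ) : MulAut F := mkAut (pF i) (pG i) (p_fg i) (p_gf i)

/-- The group generated by the standard automorphisms of the handles `s, ..., s+h-1`. -/
def M (s h : ℕ) : Subgroup (MulAut F) :=
  Subgroup.closure ({φ | ∃ i, s ≤ i ∧ i < s + h ∧ (φ = Ta i ∨ φ = Tb i)} ∪
    {φ | ∃ i, s ≤ i ∧ i + 1 < s + h ∧ φ = P i})

/-- abelianisation of `F` -/
noncomputable def cl : F →* Multiplicative (ℕ →₀ ℤ) :=
  FreeGroup.lift fun n => Multiplicative.ofAdd (Finsupp.single n 1)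

/-- automorphisms acting trivially on the abelianisation -/
noncomputable def IA : Subgroup (MulAut F) where
  carrier := {φ | ∀ x, cl (φ x) = cl x}
  mul_mem' := fun {φ ψ} hφ hψ x => by
    simp only [Set.mem_setOf_eq] at hφ hψ
    rw [MulAut.mul_apply, hφ, hψ]
  one_mem' := fun x => by simp
  inv_mem' := fun {φ} hφ x => by
    simp only [Set.mem_setOf_eq] at hφ
    rw [← hφ (φ⁻¹ x), MulAut.apply_inv_self]

/-- the Torelli group of the handles `s, ..., s+h-1` with one boundary component -/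
noncomputable def Tor (s h : ℕ) : Subgroup (MulAut F) := M s h ⊓ IA

/-- `w i : a_i ↦ b_i⁻¹, b_i ↦ b_i a_i` -/
def w (i : ℕ) : MulAut F := Ta i * (Tb i)⁻¹
/-- `iota i = (w i)^3`, acts as `-1` on the homology of handle `i` -/
def iota (i : ℕ) : MulAut F := w i * w i * w i

end Pool.Agent.Torelli
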