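import Pool.Agent.Torelli.Words

/-!
# Torelli / Shift : words at shifted handles

`(simp only [w_eq, iota_eq, TD_eq, S_eq, DX_eq, BP_eq, gKA_eq, KA_eq, KB_eq, Ta_ew, Tb_ew, P_ew, evWord_shift, evWord_inv', evWord_mul']; exact evWord_eq m _ _ (by decide +kernel) s)` proves an identity between products (and inverses) of `Ta`, `Tb`, `P`, `w`, `iota`,
`TD`, `S`, `DX`, `BP`, `gKA`, `KA`, `KB` at the handles `s`, `s + 1`, `s + 2`, ... (written
`s + 1`, `s + 2`, or `s + 1 + 1`), where `m` is twice the number of handles involved.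
-/

set_option autoImplicit false

namespace Pool.Agent.Torelli

open Pool.Torelli Pool.Torelli.Refl Gen

/-- shift a generator -/
def Gen.sh (k : ℕ) : Gen → Gen
  | Gen.A i => Gen.A (k + i)
  | Gen.B i => Gen.B (k + i)
  | Gen.C i => Gen.C (k + i)

/-- shift a word -/
def shW (k : ℕ) (w : List (Gen × Bool)) : List (Gen × Bool) := w.map fun p => (p.1.sh k, p.2)

theorem evWord_shift (s k : ℕ) (w : List (Gen × Bool)) : evWord (s + k) w = evWord s (shW k w) := by
  induction w with
  | nil => rfl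
  | cons p w ih =>
    rw [evWord_cons, ih]
    show _ = evWord s ((p.1.sh k, p.2) :: shW k w)
    rw [evWord_cons]
    congr 1
    obtain ⟨q, c⟩ := p
    cases q <;> simp [evL, Gen.ev, Gen.sh, add_assoc]

theorem Ta_ew (s : ℕ) : Ta s = evWord s [(Gen.A 0, true)] := Ta_eq s 0
theorem Tb_ew (s : ℕ) : Tb s = evWord s [(Gen.B 0, true)] := Tb_eq s 0
theorem P_ew (s : ℕ) : P s = evWord s [(Gen.C 0, true)] := P_eq s 0
theorem evWord_inv' (s : ℕ) (w : List (Gen × Bool)) : (evWord s w)⁻¹ = evWord s (invWd w) :=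
  (evWord_invWd s w).symm
theorem evWord_mul' (s : ℕ) (u v : List (Gen × Bool)) :
    evWord s u * evWord s v = evWord s (u ++ v) := (evWord_append s u v).symm


theorem S_braid (s : ℕ) : S s * S (s + 1) * S s = S (s + 1) * S s * S (s + 1) := by
  (simp only [w_eq, iota_eq, TD_eq, S_eq, DX_eq, BP_eq, gKA_eq, KA_eq, KB_eq, Ta_ew, Tb_ew, P_ew, evWord_shift, evWord_inv', evWord_mul']; exact evWord_eq 6 _ _ (by decide +kernel) s)

theorem DX_def' (s : ℕ) : DX s = (iota s)⁻¹ * P s * iota s * P s := by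
  (simp only [w_eq, iota_eq, TD_eq, S_eq, DX_eq, BP_eq, gKA_eq, KA_eq, KB_eq, Ta_ew, Tb_ew, P_ew, evWord_shift, evWord_inv', evWord_mul']; exact evWord_eq 4 _ _ (by decide +kernel) s)

end Pool.Agent.Torelli
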